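import Mathlib
import Pool.Agent.Helper82.EB.Sol

/-!
# Finite groups with fixed point free representations: statements

`ρ : G →* End V` is fixed point free if no `ρ g`, `g ≠ 1`, fixes a nonzero vector.
-/

set_option autoImplicit false

namespace Pool.Agent.Helper82.ZS

open Pool.Agent.Helper82.EB

/-- fixed point free representation -/
def Fpf {G : Type*} [Group G] {V : Type*} [AddCommGroup V] [Module ℂ V]
    (ρ : G →* Module.End ℂ V) : Prop :=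
  ∀ g : G, g ≠ 1 → ∀ v : V, ρ g v = v → v = 0

/-- `2 (x y + (x y)⁻¹) - 1` -/
noncomputable def e {G : Type*} [Group G] {V : Type*} [AddCommGroup V] [Module ℂ V]
    (ρ : G →* Module.End ℂ V) (x y : G) : Module.End ℂ V :=
  2 * (ρ (x * y) + ρ (x * y)⁻¹) - 1

/-- (NT) roots of unity `ζ`, `η` with `ζ + ζ⁻¹ + η + η⁻¹ = 1` -/
def S_NT : Prop := ∀ (m k : ℕ) (ζ η : ℂ), 0 < m → 0 < k → IsPrimitiveRoot ζ m →
  IsPrimitiveRoot η k → ζ + ζ⁻¹ + η + η⁻¹ = 1 → m = 1 ∨ m = 3 ∨ m = 4 ∨ m = 6 ∨ m = 10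

/-- (F0) pairs of elements of order three -/
def S_F0 : Prop := ∀ (G : Type) [Group G] [Finite G] (V : Type) [AddCommGroup V] [Module ℂ V]
  [FiniteDimensional ℂ V] [Nontrivial V] (ρ : G →* Module.End ℂ V), Fpf ρ →
  ∀ x y : G, x ^ 3 = 1 → x ≠ 1 → y ^ 3 = 1 → y ≠ 1 → y ≠ x → y ≠ x⁻¹ →
    e ρ x y = 1 ∨ e ρ x y = -1 ∨ (e ρ x y) ^ 2 = 5

/-- (A1) noncyclic `2`-groups with cyclic commutative subgroups and one involution -/
def S_A1 : Prop := ∀ (S : Type) [Group S] [Finite S], IsPGroup 2 S → AC S → UI S →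
  ¬ IsCyclic S → ∃ (y : S) (C : Subgroup S), y ^ 2 ≠ 1 ∧ y ^ 4 = 1 ∧ y ∈ C ∧ IsCyclic C ∧
    C.index = 2 ∧ ∀ s, s ∉ C → s ^ 2 = y ^ 2 ∧ ∀ c ∈ C, s * c * s⁻¹ = c⁻¹

/-- (A2) the sign of the action on cosets -/
def S_A2 : Prop := ∀ (G : Type) [Group G] [Finite G] (C : Subgroup G) (s : G) (m : ℕ),
  C.index = 2 * m → Odd m → (∀ g : G, g⁻¹ * s * g ∉ C) → (∀ g : G, g⁻¹ * s ^ 2 * g ∈ C) →
  ∃ H : Subgroup G, H.index = 2

/-- (A4) fusion in the Sylow `2`-subgroup of a group without elements of order three -/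
def S_A4 : Prop := ∀ (G : Type) [Group G] [Finite G], AC G → UI G →
  (∀ x : G, x ^ 3 = 1 → x = 1) → ∀ (P : Sylow 2 G) (y : G) (C : Subgroup G),
  C ≤ P → y ∈ C → y ^ 2 ≠ 1 → y ^ 4 = 1 → IsCyclic C → C.relIndex P = 2 →
  (∀ s ∈ P, s ∉ C → s ^ 2 = y ^ 2 ∧ ∀ c ∈ C, s * c * s⁻¹ = c⁻¹) →
  ∃ s ∈ P, s ∉ C ∧ ∀ g : G, g⁻¹ * s * g ∉ C

/-- (B) a central element of order three -/
def S_B : Prop := ∀ (G : Type) [Group G] [Finite G], AC G → ∀ s : G, s ^ 3 = 1 → s ≠ 1 →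
  (∀ g : G, g * s = s * g) → ∃ N : Subgroup G, ∃ _ : N.Normal, N ≠ ⊤ ∧ Group.IsSolvable (G ⧸ N)

/-- (G3) groups with at most one subgroup of order three are solvable -/
def S_G3 : Prop := ∀ (G : Type) [Group G] [Finite G], AC G → UI G →
  (∀ x y : G, x ^ 3 = 1 → x ≠ 1 → y ^ 3 = 1 → y ≠ 1 → y = x ∨ y = x⁻¹) → Group.IsSolvable G

end Pool.Agent.Helper82.ZS
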