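import Mathlib

/-!
# Identities in noncommutative rings

Elements `a`, `b`, `c` with `a² = -a - 1`; the element `ab + ba + a + b + 1` is `ab + (ab)⁻¹`.
-/

set_option autoImplicit false
set_option linter.unusedSimpArgs false

namespace Pool.Agent.Helper82.ZS

variable {R : Type*} [Ring R]

/-- `ab + (ab)⁻¹` -/
def tr (a b : R) : R := a * b + b * a + a + b + 1

lemma tr_comm {a b : R} (ha : a * a = -a - 1) : tr a b * a = a * tr a b := by
  have ha' : ∀ x, a * (a * x) = -(a * x) - x := fun x => by
    rw [← mul_assoc, ha]; noncomm_ring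
  simp only [tr, mul_add, add_mul, mul_assoc, ha, ha', mul_sub, mul_neg, mul_one, one_mul]
  abel

lemma tr_symm (a b : R) : tr a b = tr b a := by simp only [tr]; abel

lemma tr_conj {a b : R} (ha : a * a = -a - 1) (hb : b * b = -b - 1) :
    tr a (b * a * (-1 - b)) = 1 + tr a b - tr a b * tr a b := by
  have ha' : ∀ x, a * (a * x) = -(a * x) - x := fun x => by
    rw [← mul_assoc, ha]; noncomm_ring
  have hb' : ∀ x, b * (b * x) = -(b * x) - x := fun x => by
    rw [← mul_assoc, hb]; noncomm_ring
  simp only [tr, mul_add, add_mul, mul_assoc, ha, ha', hb, hb', mul_sub, sub_mul, neg_mul, mul_neg,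
    mul_one, one_mul]
  abel

lemma p1_ring {a b c : R} (ha : a * a = -a - 1) (hb : b * b = -b - 1) (hc : c * c = -c - 1)
    (hba : tr a b = 1) (hca : tr a c = 0 ∨ tr a c = 1) :
    (tr b c * tr b c - tr b c)
      + (tr ((-1 - a) * b * a) c * tr ((-1 - a) * b * a) c - tr ((-1 - a) * b * a) c)
      + (tr (a * b * (-1 - a)) c * tr (a * b * (-1 - a)) c - tr (a * b * (-1 - a)) c) = 2 := by
  have hba1 : b * a = -(a * b) - a - b := by
    have h : b * a = tr a b - 1 - a * b - a - b := by simp only [tr]; abel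
    rw [h, hba]; abel
  have ha' : ∀ x, a * (a * x) = -(a * x) - x := fun x => by
    rw [← mul_assoc, ha]; noncomm_ring
  have hb' : ∀ x, b * (b * x) = -(b * x) - x := fun x => by
    rw [← mul_assoc, hb]; noncomm_ring
  have hc' : ∀ x, c * (c * x) = -(c * x) - x := fun x => by
    rw [← mul_assoc, hc]; noncomm_ring
  have hba' : ∀ x, b * (a * x) = -(a * (b * x)) - a * x - b * x := fun x => by
    rw [← mul_assoc, hba1]; noncomm_ring
  have h21 : (2 : R) = 1 + 1 := by norm_num
  have hc0 : c * a = tr a c - 1 - a * c - a - c := by simp only [tr]; abel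
  rcases hca with hca | hca
  · have hca1 : c * a = -1 - a * c - a - c := by rw [hc0, hca]; abel
    have hca' : ∀ x, c * (a * x) = -x - a * (c * x) - a * x - c * x := fun x => by
      rw [← mul_assoc, hca1]; noncomm_ring
    rw [h21]
    simp only [tr, mul_add, add_mul, mul_assoc, ha, ha', hb, hb', hc, hc', hba1, hba', hca1, hca',
      mul_sub, sub_mul, neg_mul, mul_neg, mul_one, one_mul]
    abel
  · have hca1 : c * a = -(a * c) - a - c := by rw [hc0, hca]; abel
    have hca' : ∀ x, c * (a * x) = -(a * (c * x)) - a * x - c * x := fun x => by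
      rw [← mul_assoc, hca1]; noncomm_ring
    rw [h21]
    simp only [tr, mul_add, add_mul, mul_assoc, ha, ha', hb, hb', hc, hc', hba1, hba', hca1, hca',
      mul_sub, sub_mul, neg_mul, mul_neg, mul_one, one_mul]
    abel

/-- the braid relation -/
lemma braid_ring {a b : R} (ha : a * a = -a - 1) (hb : b * b = -b - 1) (h : tr a b = 1) :
    a * b * a = b * a * b := by
  have hba : b * a = -(a * b) - a - b := by
    have h1 : b * a = tr a b - 1 - a * b - a - b := by simp only [tr]; abel
    rw [h1, h]; abel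
  have h1 : a * b * a = a + b + 1 := by
    rw [mul_assoc, hba, mul_sub, mul_sub, mul_neg, ← mul_assoc, ha]; noncomm_ring
  have h2 : b * a * b = a + b + 1 := by
    rw [hba, sub_mul, sub_mul, neg_mul, mul_assoc, hb]; noncomm_ring
  rw [h1, h2]

/-- quaternion units from two elements of order three -/
lemma quat_ring {a b : R} (ha : a * a = -a - 1) (hb : b * b = -b - 1) (h : tr a b = 1) :
    (a * (-1 - b)) * (a * (-1 - b)) = -1 ∧
    ((-1 - a) * (-1 - b) * (-1 - a)) * ((-1 - a) * (-1 - b) * (-1 - a)) = -1 ∧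
    (a * (-1 - b)) * ((-1 - a) * (-1 - b) * (-1 - a)) = (-1 - b) * a ∧
    ((-1 - a) * (-1 - b) * (-1 - a)) * (a * (-1 - b)) = -((-1 - b) * a) := by
  have hba : b * a = -(a * b) - a - b := by
    have h1 : b * a = tr a b - 1 - a * b - a - b := by simp only [tr]; abel
    rw [h1, h]; abel
  have ha' : ∀ x, a * (a * x) = -(a * x) - x := fun x => by
    rw [← mul_assoc, ha]; noncomm_ring
  have hb' : ∀ x, b * (b * x) = -(b * x) - x := fun x => by
    rw [← mul_assoc, hb]; noncomm_ring
  have hba' : ∀ x, b * (a * x) = -(a * (b * x)) - a * x - b * x := fun x => by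
    rw [← mul_assoc, hba]; noncomm_ring
  refine ⟨?_, ?_, ?_, ?_⟩ <;>
  · simp only [mul_add, add_mul, mul_assoc, ha, ha', hb, hb', hba, hba', mul_sub, sub_mul, neg_mul,
      mul_neg, mul_one, one_mul]
    abel

/-- `γ_q` -/
def gam (q c : R) : R := q * c + c * q + q

/-- the four elements `2 τ - 1` in terms of `γ` -/
lemma e_ring {a b : R} (c : R) (ha : a * a = -a - 1) (hb : b * b = -b - 1)
    (h : tr a b = 1) :
    2 * tr a c - 1 = -(gam (a * (-1 - b)) c + gam ((-1 - a) * (-1 - b) * (-1 - a)) c
      + gam ((-1 - b) * a) c) ∧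
    2 * tr b c - 1 = gam (a * (-1 - b)) c - gam ((-1 - a) * (-1 - b) * (-1 - a)) c
      + gam ((-1 - b) * a) c ∧
    2 * tr ((-1 - a) * b * a) c - 1 = -gam (a * (-1 - b)) c
      + gam ((-1 - a) * (-1 - b) * (-1 - a)) c + gam ((-1 - b) * a) c ∧
    2 * tr (a * b * (-1 - a)) c - 1 = gam (a * (-1 - b)) c
      + gam ((-1 - a) * (-1 - b) * (-1 - a)) c - gam ((-1 - b) * a) c := by
  have hba : b * a = -(a * b) - a - b := by
    have h1 : b * a = tr a b - 1 - a * b - a - b := by simp only [tr]; abel
    rw [h1, h]; abel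
  have ha' : ∀ x, a * (a * x) = -(a * x) - x := fun x => by
    rw [← mul_assoc, ha]; noncomm_ring
  have hb' : ∀ x, b * (b * x) = -(b * x) - x := fun x => by
    rw [← mul_assoc, hb]; noncomm_ring
  have hba' : ∀ x, b * (a * x) = -(a * (b * x)) - a * x - b * x := fun x => by
    rw [← mul_assoc, hba]; noncomm_ring
  have h21 : (2 : R) = 1 + 1 := by norm_num
  rw [h21]
  refine ⟨?_, ?_, ?_, ?_⟩ <;>
  · simp only [tr, gam, mul_add, add_mul, mul_assoc, ha, ha', hb, hb', hba, hba', mul_sub, sub_mul,
      neg_mul, mul_neg, mul_one, one_mul]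
    abel

section quat

variable {i j c : R}

lemma gam_key (hi : i * i = -1) (hj : j * j = -1) (hji : j * i = -(i * j))
    (hc : c * c = -c - 1) :
    (i * c - c * i) * (gam i c * j + j * gam i c)
      = i * (gam i c * gam j c + gam j c * gam i c)
        - (gam i c * gam (i * j) c + gam (i * j) c * gam i c) := by
  have hi' : ∀ x, i * (i * x) = -x := fun x => by rw [← mul_assoc, hi, neg_one_mul]
  have hj' : ∀ x, j * (j * x) = -x := fun x => by rw [← mul_assoc, hj, neg_one_mul]
  have hji' : ∀ x, j * (i * x) = -(i * (j * x)) := fun x => by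
    rw [← mul_assoc, hji]; noncomm_ring
  have hc' : ∀ x, c * (c * x) = -(c * x) - x := fun x => by
    rw [← mul_assoc, hc]; noncomm_ring
  simp only [gam, mul_add, add_mul, mul_assoc, hi, hi', hj, hj', hji, hji', hc, hc', mul_sub,
    sub_mul, neg_mul, mul_neg, mul_one, one_mul]
  abel

lemma comm_key (hi : i * i = -1) (hj : j * j = -1) (hji : j * i = -(i * j)) (c : R) :
    2 * (c * i - i * c) = (gam j c * (i * j) + (i * j) * gam j c)
      - (gam (i * j) c * j + j * gam (i * j) c) := by
  have hi' : ∀ x, i * (i * x) = -x := fun x => by rw [← mul_assoc, hi, neg_one_mul]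
  have hj' : ∀ x, j * (j * x) = -x := fun x => by rw [← mul_assoc, hj, neg_one_mul]
  have hji' : ∀ x, j * (i * x) = -(i * (j * x)) := fun x => by
    rw [← mul_assoc, hji]; noncomm_ring
  simp only [gam, mul_add, add_mul, mul_assoc, hi, hi', hj, hj', hji, hji', mul_sub,
    sub_mul, neg_mul, mul_neg, mul_one, one_mul, two_mul]
  abel

lemma sum_key (hi : i * i = -1) (hj : j * j = -1) (hji : j * i = -(i * j)) (c : R) :
    (i * j - j) * (c + 2 - (i * c * i + j * c * j + (i * j) * c * (i * j)))
      = i * (gam i c + gam j c + gam (i * j) c) - (gam i c + gam j c + gam (i * j) c) * i := by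
  have hi' : ∀ x, i * (i * x) = -x := fun x => by rw [← mul_assoc, hi, neg_one_mul]
  have hj' : ∀ x, j * (j * x) = -x := fun x => by rw [← mul_assoc, hj, neg_one_mul]
  have hji' : ∀ x, j * (i * x) = -(i * (j * x)) := fun x => by
    rw [← mul_assoc, hji]; noncomm_ring
  simp only [gam, mul_add, add_mul, mul_assoc, hi, hi', hj, hj', hji, hji', mul_sub,
    sub_mul, neg_mul, mul_neg, mul_one, one_mul, mul_two]
  abel

end quat

end Pool.Agent.Helper82.ZS
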