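import Mathlib
import Pool.Agent.Helper82.ZS.Fr
import Pool.Agent.Helper82.ZS.Ring

/-!
# Elements of order three: statements
-/

set_option autoImplicit false

namespace Pool.Agent.Helper82.ZS

/-- element of order three -/
def O3 {G : Type*} [Group G] (x : G) : Prop := x ^ 3 = 1 ∧ x ≠ 1

/-- the four points of the line through `a` and `b` (if `a b a = b a b`) -/
def ln {G : Type*} [Group G] (a b : G) : Fin 4 → G := ![a, b, a⁻¹ * b * a, a * b * a⁻¹]

/-- `c` is not a point of the line -/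
def Off {G : Type*} [Group G] (a b c : G) : Prop := ∀ n, c ≠ ln a b n ∧ c ≠ (ln a b n)⁻¹

/-- the geometry of the elements of order three -/
structure Geo (G : Type*) [Group G] (Adj : G → G → Prop) : Prop where
  symm : ∀ x y, O3 x → O3 y → Adj x y → Adj y x
  inv : ∀ x y, O3 x → O3 y → Adj x y → Adj x y⁻¹
  conj : ∀ g x y, O3 x → O3 y → Adj x y → Adj (g * x * g⁻¹) (g * y * g⁻¹)
  ne : ∀ x y, O3 x → O3 y → Adj x y → y ≠ x ∧ y ≠ x⁻¹
  braid : ∀ x y, O3 x → O3 y → Adj x y → x * y * x = y * x * y ∨ x * y⁻¹ * x = y⁻¹ * x * y⁻¹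
  two : ∀ a b c, O3 a → O3 b → Adj a b → a * b * a = b * a * b → O3 c → Off a b c →
    ∃ s : Finset (Fin 4), s.card = 2 ∧ ∀ n, n ∈ s ↔ Adj c (ln a b n)
  opp : ∀ a b c d, O3 a → O3 b → Adj a b → a * b * a = b * a * b → O3 c → Off a b c →
    O3 d → Off a b d → (∀ n, Adj c (ln a b n) → Adj d (ln a b n) → False) → ¬ Adj c d

/-- (CNT) there are at most twenty elements of order three -/
def S_CNT : Prop := ∀ (G : Type) [Group G] [Finite G] (Adj : G → G → Prop), Geo G Adj →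
  ∀ a b : G, O3 a → O3 b → Adj a b → a * b * a = b * a * b →
  (∃ F : Finset G, F.card ≤ 20 ∧ ∀ x, O3 x → x ∈ F) ∧
  ∃ c : G, O3 c ∧ ∀ x, O3 x → x ∈ Subgroup.closure {a, b, c}

/-- the four elements `±1` or of square five -/
def ev {R : Type*} [Ring R] (i j c : R) : Fin 4 → R :=
  ![-(gam i c + gam j c + gam (i * j) c), gam i c - gam j c + gam (i * j) c,
    -gam i c + gam j c + gam (i * j) c, gam i c + gam j c - gam (i * j) c]

/-- (L3) complementary elements are not adjacent -/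
def S_L3 : Prop := ∀ (V : Type) [AddCommGroup V] [Module ℂ V] [FiniteDimensional ℂ V]
  [Nontrivial V] (i j c d : Module.End ℂ V), i * i = -1 → j * j = -1 → j * i = -(i * j) →
  c * c = -c - 1 → d * d = -d - 1 →
  (∀ n, ((ev i j c n = 1 ∨ ev i j c n = -1) ∧ ev i j d n * ev i j d n = 5) ∨
    (ev i j c n * ev i j c n = 5 ∧ (ev i j d n = 1 ∨ ev i j d n = -1))) →
  (∃ n, ev i j c n = 1 ∨ ev i j c n = -1) →
  2 * tr c d - 1 ≠ 1 ∧ 2 * tr c d - 1 ≠ -1

end Pool.Agent.Helper82.ZS
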