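import Mathlib
import Pool.Agent.Helper82.ZS.Fr2

/-!
# The centralizer of the elements of order three; orthogonal groups: statements
-/

set_option autoImplicit false

namespace Pool.Agent.Helper82.ZS

open Pool.Agent.Helper82.EB
open Pool.Agent.Helper78.Eigen Pool.Agent.Helper78.GroupBound

/-- (IDX) the centralizer of the elements of order three -/
def S_IDX : Prop := ∀ (G : Type) [Group G] [Finite G], AC G → UI G →
  ∀ (F : Finset G) (a b c i x : G), (∀ y, O3 y → y ∈ F) → F.card ≤ 20 → O3 a → O3 b → O3 c →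
  (∀ y, O3 y → y ∈ Subgroup.closure {a, b, c}) → Quat i x →
  i ∈ Subgroup.closure {a, b, c} → x ∈ Subgroup.closure {a, b, c} →
  ∃ K : Subgroup G, K.Normal ∧ IsZGroup K ∧ K.index ≤ 8000

/-- (REP) the complexification of a finite group acting freely on a sphere -/
def S_REP : Prop := ∀ (N : ℕ) (Γ : Subgroup (Og N)), Free Γ →
  ∃ ρ : Γ →* Module.End ℂ (Fin N → ℂ), Fpf ρ

end Pool.Agent.Helper82.ZS
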