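import Mathlib
import Pool.Agent.Helper82.ZS.Fr2

/-!
# Elements of order three in fixed point free representations
-/

set_option autoImplicit false

namespace Pool.Agent.Helper82.ZS

variable {G : Type*} [Group G] {V : Type*} [AddCommGroup V] [Module ℂ V]
  {ρ : G →* Module.End ℂ V}

/-- adjacent elements of order three -/
def Adj (ρ : G →* Module.End ℂ V) (x y : G) : Prop := tr (ρ x) (ρ y) = 0 ∨ tr (ρ x) (ρ y) = 1

lemma O3.inv {x : G} (h : O3 x) : O3 x⁻¹ :=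
  ⟨by rw [inv_pow, h.1, inv_one], fun h1 => h.2 (inv_eq_one.mp h1)⟩

lemma O3.conj {x : G} (h : O3 x) (g : G) : O3 (g * x * g⁻¹) := by
  refine ⟨by rw [conj_pow, h.1, mul_one, mul_inv_cancel], fun h1 => h.2 ?_⟩
  have h2 : x = g⁻¹ * (g * x * g⁻¹) * g := by group
  rw [h2, h1]; group

lemma O3.conj' {x : G} (h : O3 x) (g : G) : O3 (g⁻¹ * x * g) := by
  have := h.conj g⁻¹
  rwa [inv_inv] at this

lemma O3.inv_eq {x : G} (h : O3 x) : x⁻¹ = x * x := by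
  rw [inv_eq_iff_mul_eq_one, ← mul_assoc, ← pow_two, ← pow_succ]
  exact h.1

lemma O3.ne_inv {x : G} (h : O3 x) : x ≠ x⁻¹ := by
  intro h1
  rw [h.inv_eq] at h1
  exact h.2 (mul_left_cancel (a := x) (by rw [← h1, mul_one]))

/-- the representation is faithful -/
lemma Fpf.faithful [Nontrivial V] (h : Fpf ρ) {g : G} (hg : ρ g = 1) : g = 1 := by
  by_contra hne
  obtain ⟨v, hv⟩ := exists_ne (0 : V)
  exact hv (h g hne v (by rw [hg]; rfl))

lemma Fpf.inj [Nontrivial V] (h : Fpf ρ) {g k : G} (hg : ρ g = ρ k) : g = k := by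
  have h1 : ρ (g * k⁻¹) = 1 := by rw [map_mul, hg, ← map_mul, mul_inv_cancel, _root_.map_one]
  exact mul_inv_eq_one.mp (h.faithful h1)

lemma Fpf.sq (h : Fpf ρ) {x : G} (hx : O3 x) : ρ x * ρ x = -ρ x - 1 := by
  have h3 : ρ x * (ρ x * ρ x) = 1 := by
    rw [← map_mul, ← map_mul, ← mul_assoc, ← pow_two, ← pow_succ, hx.1, _root_.map_one]
  ext v
  have h4 : (ρ x * ρ x + ρ x + 1) v = 0 := by
    refine h x hx.2 _ ?_
    have h5 : ρ x * (ρ x * ρ x + ρ x + 1) = ρ x * ρ x + ρ x + 1 := by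
      rw [mul_add, mul_add, h3, mul_one]; abel
    calc ρ x ((ρ x * ρ x + ρ x + 1) v) = (ρ x * (ρ x * ρ x + ρ x + 1)) v := rfl
      _ = _ := by rw [h5]
  have h5 : (ρ x * ρ x) v + ρ x v + v = 0 := h4
  have h6 : (-ρ x - 1) v = -(ρ x v) - v := rfl
  rw [add_assoc] at h5
  rw [h6, eq_neg_of_add_eq_zero_left h5, neg_add']

lemma Fpf.map_inv (h : Fpf ρ) {x : G} (hx : O3 x) : ρ x⁻¹ = -1 - ρ x := by
  rw [hx.inv_eq, map_mul, h.sq hx]; abel

lemma Fpf.tr_eq (h : Fpf ρ) {x y : G} (hx : O3 x) (hy : O3 y) :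
    ρ (x * y) + ρ (x * y)⁻¹ = tr (ρ x) (ρ y) := by
  rw [mul_inv_rev, map_mul, map_mul, h.map_inv hx, h.map_inv hy, tr]
  noncomm_ring

lemma Fpf.tr_inv (h : Fpf ρ) {x y : G} (hy : O3 y) :
    tr (ρ x) (ρ y⁻¹) = 1 - tr (ρ x) (ρ y) := by
  rw [h.map_inv hy, tr, tr]
  noncomm_ring

lemma tr_conj_map (g x y : G) :
    tr (ρ (g * x * g⁻¹)) (ρ (g * y * g⁻¹)) = ρ g * tr (ρ x) (ρ y) * ρ g⁻¹ := by
  have h1 : ρ g * ρ g⁻¹ = 1 := by rw [← map_mul, mul_inv_cancel, _root_.map_one]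
  have h2 : ∀ u, ρ g⁻¹ * (ρ g * u) = u := fun u => by
    rw [← mul_assoc, ← map_mul, inv_mul_cancel, _root_.map_one, one_mul]
  simp only [tr, map_mul, mul_add, add_mul, mul_assoc, h2, h1, mul_one]

lemma Adj.symm' {x y : G} (h : Adj ρ x y) : Adj ρ y x := by
  rw [Adj, tr_symm]; exact h

lemma Adj.inv' (hf : Fpf ρ) {x y : G} (hy : O3 y) (h : Adj ρ x y) : Adj ρ x y⁻¹ := by
  rw [Adj, hf.tr_inv hy]
  rcases h with h | h
  · right; rw [h, sub_zero]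
  · left; rw [h, sub_self]

lemma Adj.conj' {x y : G} (h : Adj ρ x y) (g : G) : Adj ρ (g * x * g⁻¹) (g * y * g⁻¹) := by
  rw [Adj, tr_conj_map]
  rcases h with h | h
  · left; rw [h, mul_zero, zero_mul]
  · right; rw [h, mul_one, ← map_mul, mul_inv_cancel, _root_.map_one]

lemma two_ne [Nontrivial V] (n m : ℤ) (h : n ≠ m) :
    ((n : ℤ) : Module.End ℂ V) ≠ (m : Module.End ℂ V) := by
  intro h1
  obtain ⟨v, hv⟩ := exists_ne (0 : V)
  have h2 := LinearMap.congr_fun h1 v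
  rw [Module.End.intCast_apply, Module.End.intCast_apply] at h2
  have h3 : ((n - m : ℤ) : ℂ) • v = 0 := by
    rw [Int.cast_sub, sub_smul, Int.cast_smul_eq_zsmul, Int.cast_smul_eq_zsmul, h2, sub_self]
  rcases smul_eq_zero.mp h3 with h4 | h4
  · rw [Int.cast_eq_zero] at h4
    omega
  · exact hv h4

end Pool.Agent.Helper82.ZS
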