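import Mathlib
import Pool.Agent.Helper82.ZS.Basic

/-!
# Elements of order three and quaternion units
-/

set_option autoImplicit false
set_option linter.unusedSimpArgs false

namespace Pool.Agent.Helper82.ZS

section ring

variable {R : Type*} [Ring R]

lemma gam_neg (q c : R) : gam (-q) c = -gam q c := by
  simp only [gam, neg_mul, mul_neg]; abel

lemma gam_comm {q : R} (c : R) (hq : q * q = -1) : gam q c * q = q * gam q c := by
  have hq' : ∀ x, q * (q * x) = -x := fun x => by rw [← mul_assoc, hq, neg_one_mul]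
  simp only [gam, mul_add, add_mul, mul_assoc, hq, hq', mul_neg, mul_one]
  abel

/-- the sum of the squares of the four elements -/
lemma ev_sq_sum (i j c : R) :
    ev i j c 0 * ev i j c 0 + ev i j c 1 * ev i j c 1 + ev i j c 2 * ev i j c 2
      + ev i j c 3 * ev i j c 3
      = 4 * (gam i c * gam i c + gam j c * gam j c + gam (i * j) c * gam (i * j) c) := by
  change -(gam i c + gam j c + gam (i * j) c) * -(gam i c + gam j c + gam (i * j) c)
    + (gam i c - gam j c + gam (i * j) c) * (gam i c - gam j c + gam (i * j) c)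
    + (-gam i c + gam j c + gam (i * j) c) * (-gam i c + gam j c + gam (i * j) c)
    + (gam i c + gam j c - gam (i * j) c) * (gam i c + gam j c - gam (i * j) c) = _
  generalize gam i c = x
  generalize gam j c = y
  generalize gam (i * j) c = z
  noncomm_ring

lemma gam_sq {q c : R} (hq : q * q = -1) (hc : c * c = -c - 1) :
    gam q c * gam q c = (q * c * q) * c + c * (q * c * q) + q * c * q - c + 1 := by
  have hq' : ∀ x, q * (q * x) = -x := fun x => by rw [← mul_assoc, hq, neg_one_mul]
  have hc' : ∀ x, c * (c * x) = -(c * x) - x := fun x => by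
    rw [← mul_assoc, hc]; noncomm_ring
  simp only [gam, mul_add, add_mul, mul_assoc, hq, hq', hc, hc', mul_sub, sub_mul, neg_mul,
    mul_neg, mul_one, one_mul]
  abel

lemma mul_sq {i j : R} (hi : i * i = -1) (hj : j * j = -1) (hji : j * i = -(i * j)) :
    (i * j) * (i * j) = -1 := by
  rw [mul_assoc, ← mul_assoc j i j, hji, neg_mul, mul_assoc i j j, hj, mul_neg, mul_neg, mul_one,
    mul_neg, neg_neg, hi]

lemma gam_sq_sum {i j c : R} (hi : i * i = -1) (hj : j * j = -1) (hji : j * i = -(i * j))
    (hc : c * c = -c - 1) (hs : i * c * i + j * c * j + (i * j) * c * (i * j) = c + 2) :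
    gam i c * gam i c + gam j c * gam j c + gam (i * j) c * gam (i * j) c = 3 := by
  rw [gam_sq hi hc, gam_sq hj hc, gam_sq (mul_sq hi hj hji) hc]
  have h1 : i * c * i = c + 2 - j * c * j - (i * j) * c * (i * j) := by rw [← hs]; abel
  rw [h1]
  generalize j * c * j = x
  generalize (i * j) * c * (i * j) = y
  have e2 : (2 : R) = 1 + 1 := by norm_num
  have e3 : (3 : R) = 1 + 1 + 1 := by norm_num
  rw [e2, e3]
  have h2 : (c + (1 + 1) - x - y) * c + c * (c + (1 + 1) - x - y) + (c + (1 + 1) - x - y) - c + 1
      + (x * c + c * x + x - c + 1) + (y * c + c * y + y - c + 1)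
      = (c * c) + (c * c) + c + c + (1 + 1 + 1 + 1 + 1) := by noncomm_ring
  rw [h2, hc]
  abel

end ring

section rep

variable {V : Type*} [AddCommGroup V] [Module ℂ V]

lemma two_cancel {x : Module.End ℂ V} (h : 2 * x = 0) : x = 0 := by
  have h1 : x = (1 / 2 : ℂ) • (2 * x) := by
    rw [two_mul, smul_add, ← add_smul]
    norm_num
  rw [h1, h, smul_zero]

/-- if one of the four elements is `±1`, then `ici + jcj + kck = c + 2` -/
lemma sum_of_one {i j c : Module.End ℂ V} (hi : i * i = -1) (hj : j * j = -1)
    (hji : j * i = -(i * j)) (h : ∃ n, ev i j c n = 1 ∨ ev i j c n = -1) :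
    i * c * i + j * c * j + (i * j) * c * (i * j) = c + 2 := by
  -- the case of signs
  have key : ∀ i' j' : Module.End ℂ V, i' * i' = -1 → j' * j' = -1 → j' * i' = -(i' * j') →
      (gam i' c + gam j' c + gam (i' * j') c = 1 ∨ gam i' c + gam j' c + gam (i' * j') c = -1) →
      i' * c * i' + j' * c * j' + (i' * j') * c * (i' * j') = c + 2 := by
    intro i' j' hi' hj' hji' h1
    have h2 := sum_key hi' hj' hji' c
    have h3 : i' * (gam i' c + gam j' c + gam (i' * j') c)
        - (gam i' c + gam j' c + gam (i' * j') c) * i' = 0 := by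
      rcases h1 with h1 | h1 <;> rw [h1] <;> noncomm_ring
    rw [h3] at h2
    have h4 : (i' * j' - j') * (i' * j' - j') = -2 := by
      have e1 : (i' * j') * (i' * j') = -1 := mul_sq hi' hj' hji'
      have e2 : (i' * j') * j' = -i' := by rw [mul_assoc, hj', mul_neg, mul_one]
      have e3 : j' * (i' * j') = i' := by
        rw [← mul_assoc, hji', neg_mul, mul_assoc, hj', mul_neg, mul_one, neg_neg]
      have e4 : (2 : Module.End ℂ V) = 1 + 1 := by norm_num
      rw [mul_sub, sub_mul, sub_mul, e1, e2, e3, hj', e4]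
      abel
    have h5 : 2 * (c + 2 - (i' * c * i' + j' * c * j' + (i' * j') * c * (i' * j'))) = 0 := by
      have h6 := congrArg (fun x => (i' * j' - j') * x) h2
      simp only [mul_zero] at h6
      rw [← mul_assoc, h4] at h6
      rw [← neg_eq_zero, ← neg_mul]
      exact h6
    exact (sub_eq_zero.mp (two_cancel h5)).symm
  have e1 : ∀ q : Module.End ℂ V, -q * c * -q = q * c * q := fun q => by
    rw [neg_mul, neg_mul, mul_neg, neg_neg]
  obtain ⟨n, hn⟩ := h
  fin_cases n
  · have h1 : -(gam i c + gam j c + gam (i * j) c) = 1 ∨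
        -(gam i c + gam j c + gam (i * j) c) = -1 := hn
    refine key i j hi hj hji ?_
    rcases h1 with h1 | h1
    · right; rw [← h1, neg_neg]
    · left; exact neg_inj.mp h1
  · have h1 : gam i c - gam j c + gam (i * j) c = 1 ∨ gam i c - gam j c + gam (i * j) c = -1 := hn
    have h2 := key (-i) j (by rw [neg_mul_neg, hi]) hj (by rw [mul_neg, hji, neg_mul]) (by
      rw [neg_mul, gam_neg, gam_neg]
      rcases h1 with h1 | h1
      · right; rw [← h1]; abel
      · left; rw [← neg_eq_iff_eq_neg] at h1; rw [← h1]; abel)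
    rw [neg_mul i j, e1, e1] at h2
    exact h2
  · have h1 : -gam i c + gam j c + gam (i * j) c = 1 ∨
        -gam i c + gam j c + gam (i * j) c = -1 := hn
    have h2 := key i (-j) hi (by rw [neg_mul_neg, hj]) (by rw [neg_mul, hji, mul_neg]) (by
      rw [mul_neg, gam_neg, gam_neg]
      rcases h1 with h1 | h1
      · right; rw [← h1]; abel
      · left; rw [← neg_eq_iff_eq_neg] at h1; rw [← h1]; abel)
    rw [mul_neg i j, e1, e1] at h2
    exact h2
  · have h1 : gam i c + gam j c - gam (i * j) c = 1 ∨ gam i c + gam j c - gam (i * j) c = -1 := hn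
    have h2 := key (-i) (-j) (by rw [neg_mul_neg, hi]) (by rw [neg_mul_neg, hj])
      (by rw [neg_mul_neg, hji, neg_mul_neg]) (by
      rw [neg_mul_neg, gam_neg, gam_neg]
      rcases h1 with h1 | h1
      · right; rw [← h1]; abel
      · left; rw [← neg_eq_iff_eq_neg] at h1; rw [← h1]; abel)
    rw [neg_mul_neg i j, e1, e1] at h2
    exact h2

/-- the sum of the four squares is twelve -/
lemma ev_sum_twelve {i j c : Module.End ℂ V} (hi : i * i = -1) (hj : j * j = -1)
    (hji : j * i = -(i * j)) (hc : c * c = -c - 1)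
    (h : ∃ n, ev i j c n = 1 ∨ ev i j c n = -1) :
    ev i j c 0 * ev i j c 0 + ev i j c 1 * ev i j c 1 + ev i j c 2 * ev i j c 2
      + ev i j c 3 * ev i j c 3 = 12 := by
  rw [ev_sq_sum, gam_sq_sum hi hj hji hc (sum_of_one hi hj hji h)]
  norm_num

/-- all four squares equal to five: the elements `γ` anticommute -/
lemma gam_anti {i j c : Module.End ℂ V} (h : ∀ n, ev i j c n * ev i j c n = 5) :
    (gam i c * gam j c + gam j c * gam i c = 0 ∧
      gam i c * gam (i * j) c + gam (i * j) c * gam i c = 0 ∧
      gam j c * gam (i * j) c + gam (i * j) c * gam j c = 0) ∧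
    4 * (gam i c * gam i c + gam j c * gam j c + gam (i * j) c * gam (i * j) c) = 20 := by
  have h4 : 4 * (gam i c * gam i c + gam j c * gam j c + gam (i * j) c * gam (i * j) c)
      = 20 := by
    rw [← ev_sq_sum, h 0, h 1, h 2, h 3]
    norm_num
  refine ⟨?_, h4⟩
  have e0 : -(gam i c + gam j c + gam (i * j) c) * -(gam i c + gam j c + gam (i * j) c) = 5 := h 0
  have e1 : (gam i c - gam j c + gam (i * j) c) * (gam i c - gam j c + gam (i * j) c) = 5 := h 1
  have e2 : (-gam i c + gam j c + gam (i * j) c) * (-gam i c + gam j c + gam (i * j) c) = 5 := h 2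
  have e3 : (gam i c + gam j c - gam (i * j) c) * (gam i c + gam j c - gam (i * j) c) = 5 := h 3
  generalize gam i c = x at *
  generalize gam j c = y at *
  generalize gam (i * j) c = z at *
  have a1 : 2 * (2 * (x * y + y * x)) = 0 := by
    have : 2 * (2 * (x * y + y * x)) = -(x + y + z) * -(x + y + z) + (x + y - z) * (x + y - z)
        - (x - y + z) * (x - y + z) - (-x + y + z) * (-x + y + z) := by noncomm_ring
    rw [this, e0, e1, e2, e3]; abel
  have a2 : 2 * (2 * (x * z + z * x)) = 0 := by
    have : 2 * (2 * (x * z + z * x)) = -(x + y + z) * -(x + y + z) - (x + y - z) * (x + y - z)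
        + (x - y + z) * (x - y + z) - (-x + y + z) * (-x + y + z) := by noncomm_ring
    rw [this, e0, e1, e2, e3]; abel
  have a3 : 2 * (2 * (y * z + z * y)) = 0 := by
    have : 2 * (2 * (y * z + z * y)) = -(x + y + z) * -(x + y + z) - (x + y - z) * (x + y - z)
        - (x - y + z) * (x - y + z) + (-x + y + z) * (-x + y + z) := by noncomm_ring
    rw [this, e0, e1, e2, e3]; abel
  exact ⟨two_cancel (two_cancel a1), two_cancel (two_cancel a2), two_cancel (two_cancel a3)⟩

end rep

end Pool.Agent.Helper82.ZS
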