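import Mathlib
import Pool.Agent.Helper82.ZS.Quat

/-!
# The geometry of the elements of order three
-/

set_option autoImplicit false
set_option linter.unusedSectionVars false
set_option linter.unnecessarySimpa false

namespace Pool.Agent.Helper82.ZS

variable {G : Type*} [Group G] {V : Type*} [AddCommGroup V] [Module ℂ V] [Nontrivial V]
  {ρ : G →* Module.End ℂ V}

/-- the alternative for two elements of order three -/
def Alt (ρ : G →* Module.End ℂ V) : Prop :=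
  ∀ x y : G, O3 x → O3 y → y ≠ x → y ≠ x⁻¹ →
    Adj ρ x y ∨ (2 * tr (ρ x) (ρ y) - 1) * (2 * tr (ρ x) (ρ y) - 1) = 5

omit [Nontrivial V] in
lemma adj_iff {x y : G} :
    Adj ρ x y ↔ (2 * tr (ρ x) (ρ y) - 1 = 1 ∨ 2 * tr (ρ x) (ρ y) - 1 = -1) := by
  constructor
  · rintro (h | h)
    · right; rw [h, mul_zero, zero_sub]
    · left; rw [h, mul_one]; norm_num
  · rintro (h | h)
    · right
      have h1 : 2 * (tr (ρ x) (ρ y) - 1) = 0 := by
        have : 2 * (tr (ρ x) (ρ y) - 1) = (2 * tr (ρ x) (ρ y) - 1) - 1 := by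
          rw [mul_sub, mul_one, sub_sub]; norm_num
        rw [this, h, sub_self]
      exact sub_eq_zero.mp (two_cancel h1)
    · left
      have h1 : 2 * tr (ρ x) (ρ y) = 0 := by
        have : 2 * tr (ρ x) (ρ y) = (2 * tr (ρ x) (ρ y) - 1) + 1 := by abel
        rw [this, h]; abel
      exact two_cancel h1

lemma tr_self (hf : Fpf ρ) {x : G} (hx : O3 x) : tr (ρ x) (ρ x) = -1 := by
  rw [tr, hf.sq hx]; abel

lemma Adj.ne' (hf : Fpf ρ) {x y : G} (hx : O3 x) (h : Adj ρ x y) : y ≠ x ∧ y ≠ x⁻¹ := by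
  constructor
  · rintro rfl
    rw [Adj, tr_self hf hx] at h
    rcases h with h | h
    · exact two_ne (V := V) (-1) 0 (by norm_num) (by simpa using h)
    · exact two_ne (V := V) (-1) 1 (by norm_num) (by simpa using h)
  · rintro rfl
    rw [Adj, hf.tr_inv hx, tr_self hf hx] at h
    rcases h with h | h
    · refine two_ne (V := V) 2 0 (by norm_num) ?_
      push_cast
      rw [← h, sub_neg_eq_add]
      norm_num
    · refine two_ne (V := V) 2 1 (by norm_num) ?_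
      push_cast
      rw [← h, sub_neg_eq_add]
      norm_num

lemma braid_of_one (hf : Fpf ρ) {x y : G} (hx : O3 x) (hy : O3 y)
    (h : tr (ρ x) (ρ y) = 1) : x * y * x = y * x * y := by
  refine hf.inj ?_
  simp only [map_mul]
  exact braid_ring (hf.sq hx) (hf.sq hy) h

lemma Adj.braid' (hf : Fpf ρ) {x y : G} (hx : O3 x) (hy : O3 y) (h : Adj ρ x y) :
    x * y * x = y * x * y ∨ x * y⁻¹ * x = y⁻¹ * x * y⁻¹ := by
  rcases h with h | h
  · right
    exact braid_of_one hf hx hy.inv (by rw [hf.tr_inv hy, h, sub_zero])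
  · left
    exact braid_of_one hf hx hy h

lemma one_of_braid (hf : Fpf ρ) {x y : G} (hx : O3 x) (hy : O3 y) (h : Adj ρ x y)
    (hb : x * y * x = y * x * y) : tr (ρ x) (ρ y) = 1 := by
  rcases h with h | h
  · exfalso
    have h1 := braid_of_one hf hx hy.inv (by rw [hf.tr_inv hy, h, sub_zero])
    have h2 : (x * y)⁻¹ * (x * y) = 1 := inv_mul_cancel _
    have hx' := hf.sq hx
    have hy' := hf.sq hy
    have hyx : ρ y * ρ x = -1 - ρ x * ρ y - ρ x - ρ y := by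
      have : ρ y * ρ x = tr (ρ x) (ρ y) - 1 - ρ x * ρ y - ρ x - ρ y := by
        simp only [tr]; abel
      rw [this, h]; abel
    have e1 : ρ (x * y * x) = ρ y + 1 := by
      rw [map_mul, map_mul, mul_assoc, hyx, mul_sub, mul_sub, mul_sub, ← mul_assoc, hx']
      noncomm_ring
    have e2 : ρ (y * x * y) = ρ x + 1 := by
      rw [map_mul, map_mul, hyx, sub_mul, sub_mul, sub_mul, mul_assoc (ρ x) (ρ y) (ρ y), hy']
      noncomm_ring
    rw [hb, e2] at e1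
    have h3 : y = x := hf.inj (add_right_cancel e1).symm
    exact (Adj.ne' hf hx (Or.inl h : Adj ρ x y)).1 h3
  · exact h

/-- the quaternion units -/
lemma units (hf : Fpf ρ) {a b : G} (ha : O3 a) (hb : O3 b) (h : tr (ρ a) (ρ b) = 1) :
    ρ (a * b⁻¹) * ρ (a * b⁻¹) = -1 ∧
    ρ (a⁻¹ * b⁻¹ * a⁻¹) * ρ (a⁻¹ * b⁻¹ * a⁻¹) = -1 ∧
    ρ (a * b⁻¹) * ρ (a⁻¹ * b⁻¹ * a⁻¹) = ρ (b⁻¹ * a) ∧
    ρ (a⁻¹ * b⁻¹ * a⁻¹) * ρ (a * b⁻¹) = -(ρ (a * b⁻¹) * ρ (a⁻¹ * b⁻¹ * a⁻¹)) := by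
  obtain ⟨h1, h2, h3, h4⟩ := quat_ring (hf.sq ha) (hf.sq hb) h
  simp only [map_mul, hf.map_inv ha, hf.map_inv hb]
  refine ⟨h1, h2, h3, ?_⟩
  rw [h3]
  exact h4

lemma ev_eq (hf : Fpf ρ) {a b : G} (ha : O3 a) (hb : O3 b) (h : tr (ρ a) (ρ b) = 1) (c : G)
    (n : Fin 4) :
    2 * tr (ρ (ln a b n)) (ρ c) - 1 = ev (ρ (a * b⁻¹)) (ρ (a⁻¹ * b⁻¹ * a⁻¹)) (ρ c) n := by
  obtain ⟨h1, h2, h3, h4⟩ := e_ring (ρ c) (hf.sq ha) (hf.sq hb) h
  have hk : ρ (a * b⁻¹) * ρ (a⁻¹ * b⁻¹ * a⁻¹) = (-1 - ρ b) * ρ a := by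
    rw [(units hf ha hb h).2.2.1, map_mul, hf.map_inv hb]
  have hi : ρ (a * b⁻¹) = ρ a * (-1 - ρ b) := by rw [map_mul, hf.map_inv hb]
  have hj : ρ (a⁻¹ * b⁻¹ * a⁻¹) = (-1 - ρ a) * (-1 - ρ b) * (-1 - ρ a) := by
    rw [map_mul, map_mul, hf.map_inv hb, hf.map_inv ha]
  have e2 : ρ (a⁻¹ * b * a) = (-1 - ρ a) * ρ b * ρ a := by
    rw [map_mul, map_mul, hf.map_inv ha]
  have e3 : ρ (a * b * a⁻¹) = ρ a * ρ b * (-1 - ρ a) := by
    rw [map_mul, map_mul, hf.map_inv ha]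
  fin_cases n
  · change 2 * tr (ρ a) (ρ c) - 1 = -(gam (ρ (a * b⁻¹)) (ρ c)
      + gam (ρ (a⁻¹ * b⁻¹ * a⁻¹)) (ρ c) + gam (ρ (a * b⁻¹) * ρ (a⁻¹ * b⁻¹ * a⁻¹)) (ρ c))
    rw [hk, hi, hj]; exact h1
  · change 2 * tr (ρ b) (ρ c) - 1 = gam (ρ (a * b⁻¹)) (ρ c)
      - gam (ρ (a⁻¹ * b⁻¹ * a⁻¹)) (ρ c) + gam (ρ (a * b⁻¹) * ρ (a⁻¹ * b⁻¹ * a⁻¹)) (ρ c)
    rw [hk, hi, hj]; exact h2
  · change 2 * tr (ρ (a⁻¹ * b * a)) (ρ c) - 1 = -gam (ρ (a * b⁻¹)) (ρ c)
      + gam (ρ (a⁻¹ * b⁻¹ * a⁻¹)) (ρ c) + gam (ρ (a * b⁻¹) * ρ (a⁻¹ * b⁻¹ * a⁻¹)) (ρ c)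
    rw [hk, hi, hj, e2]; exact h3
  · change 2 * tr (ρ (a * b * a⁻¹)) (ρ c) - 1 = gam (ρ (a * b⁻¹)) (ρ c)
      + gam (ρ (a⁻¹ * b⁻¹ * a⁻¹)) (ρ c) - gam (ρ (a * b⁻¹) * ρ (a⁻¹ * b⁻¹ * a⁻¹)) (ρ c)
    rw [hk, hi, hj, e3]; exact h4

lemma ln_O3 {a b : G} (ha : O3 a) (hb : O3 b) (n : Fin 4) : O3 (ln a b n) := by
  fin_cases n
  · exact ha
  · exact hb
  · exact hb.conj' a
  · exact hb.conj a

/-- an involution acts as `-1` -/
lemma Fpf.invol (hf : Fpf ρ) {g : G} (h2 : g ^ 2 = 1) (h1 : g ≠ 1) : ρ g = -1 := by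
  have h3 : ρ g * ρ g = 1 := by rw [← map_mul, ← pow_two, h2, _root_.map_one]
  have h4 : ρ g + 1 = 0 := by
    ext v
    have h5 : ρ g ((ρ g + 1) v) = (ρ g + 1) v := by
      calc ρ g ((ρ g + 1) v) = (ρ g * (ρ g + 1)) v := rfl
        _ = _ := by rw [mul_add, h3, mul_one, add_comm]
    exact hf g h1 _ h5
  exact eq_neg_of_add_eq_zero_left h4

/-- commuting elements of order four -/
lemma unit_eq (hf : Fpf ρ) {x u : G} (hx : ρ x * ρ x = -1) (hu : ρ u * ρ u = -1)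
    (hc : u * x = x * u) : ρ u = ρ x ∨ ρ u = -ρ x := by
  have hc' : ρ u * ρ x = ρ x * ρ u := by rw [← map_mul, hc, map_mul]
  have h1 : ρ ((u * x) ^ 2) = 1 := by
    rw [pow_two, map_mul, map_mul, mul_assoc, ← mul_assoc (ρ x), ← hc', mul_assoc, hx,
      mul_neg_one, mul_neg, hu, neg_neg]
  have h2 : (u * x) ^ 2 = 1 := hf.faithful h1
  by_cases h3 : u * x = 1
  · right
    have h4 : ρ u * ρ x = 1 := by rw [← map_mul, h3, _root_.map_one]
    have h5 : ρ u * ρ x * ρ x = ρ x := by rw [h4, one_mul]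
    rw [mul_assoc, hx, mul_neg_one] at h5
    rw [← h5, neg_neg]
  · left
    have h4 : ρ u * ρ x = -1 := by rw [← map_mul, hf.invol h2 h3]
    have h5 : ρ u * ρ x * ρ x = -ρ x := by rw [h4, neg_one_mul]
    rw [mul_assoc, hx, mul_neg_one] at h5
    exact neg_inj.mp h5

/-- an element of order three and its conjugate are adjacent -/
lemma adj_conj (hf : Fpf ρ) (hA : Alt ρ) {s t : G} (hs : O3 s) (ht : O3 t) (hn1 : t ≠ s)
    (hn2 : t ≠ s⁻¹) : Adj ρ s (t * s * t⁻¹) := by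
  have h1 : tr (ρ s) (ρ (t * s * t⁻¹))
      = 1 + tr (ρ s) (ρ t) - tr (ρ s) (ρ t) * tr (ρ s) (ρ t) := by
    rw [map_mul, map_mul, hf.map_inv ht]
    exact tr_conj (hf.sq hs) (hf.sq ht)
  rw [Adj, h1]
  rcases hA s t hs ht hn1 hn2 with (h | h) | h
  · right; rw [h]; simp
  · right; rw [h]; simp
  · left
    have h3 : 2 * (2 * (1 + tr (ρ s) (ρ t) - tr (ρ s) (ρ t) * tr (ρ s) (ρ t))) = 0 := by
      have h4 : 2 * (2 * (1 + tr (ρ s) (ρ t) - tr (ρ s) (ρ t) * tr (ρ s) (ρ t)))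
          = 5 - (2 * tr (ρ s) (ρ t) - 1) * (2 * tr (ρ s) (ρ t) - 1) := by
        have h5 : (5 : Module.End ℂ V) = 1 + 1 + 1 + 1 + 1 := by norm_num
        rw [h5]
        noncomm_ring
      rw [h4, h, sub_self]
    exact two_cancel (two_cancel h3)

/-- the centralizer of an element of order four has at most one subgroup of order three -/
lemma unique_of_comm (hf : Fpf ρ) (hA : Alt ρ) {x s t : G} (hx : ρ x * ρ x = -1) (hs : O3 s)
    (ht : O3 t) (hsx : s * x = x * s) (htx : t * x = x * t) : t = s ∨ t = s⁻¹ := by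
  by_contra hcon
  push Not at hcon
  have hst : O3 (t * s * t⁻¹) := hs.conj t
  have h2 : Adj ρ s (t * s * t⁻¹) := adj_conj hf hA hs ht hcon.1 hcon.2
  -- a partner `b` with `tr = 1`
  obtain ⟨b, hb, hbx, hb1⟩ : ∃ b, O3 b ∧ b * x = x * b ∧ tr (ρ s) (ρ b) = 1 := by
    have h3 : (t * s * t⁻¹) * x = x * (t * s * t⁻¹) := by
      have e1 : Commute t x := htx
      have e2 : Commute s x := hsx
      exact ((e1.mul_left e2).mul_left e1.inv_left).eq
    rcases h2 with h | h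
    · refine ⟨(t * s * t⁻¹)⁻¹, hst.inv, ?_, ?_⟩
      · exact (show Commute (t * s * t⁻¹) x from h3).inv_left.eq
      · rw [hf.tr_inv hst, h, sub_zero]
    · exact ⟨_, hst, h3, h⟩
  obtain ⟨q1, q2, q3, q4⟩ := units hf hs hb hb1
  have e1 : Commute s x := hsx
  have e2 : Commute b x := hbx
  have c1 : (s * b⁻¹) * x = x * (s * b⁻¹) := (e1.mul_left e2.inv_left).eq
  have c2 : (s⁻¹ * b⁻¹ * s⁻¹) * x = x * (s⁻¹ * b⁻¹ * s⁻¹) :=
    ((e1.inv_left.mul_left e2.inv_left).mul_left e1.inv_left).eq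
  have h3 : ρ (s * b⁻¹) * ρ (s⁻¹ * b⁻¹ * s⁻¹) = ρ (s⁻¹ * b⁻¹ * s⁻¹) * ρ (s * b⁻¹) := by
    rcases unit_eq hf hx q1 c1 with h5 | h5 <;> rcases unit_eq hf hx q2 c2 with h6 | h6 <;>
      rw [h5, h6] <;> simp only [mul_neg, neg_mul]
  rw [q4] at h3
  have h4 : 2 * (ρ (s * b⁻¹) * ρ (s⁻¹ * b⁻¹ * s⁻¹)) = 0 := by
    rw [two_mul]
    nth_rewrite 2 [h3]
    exact add_neg_cancel _
  have h5 := two_cancel h4
  have h6 : (1 : Module.End ℂ V) = 0 := by
    have h7 : ρ (s * b⁻¹) * (ρ (s * b⁻¹) * ρ (s⁻¹ * b⁻¹ * s⁻¹)) * ρ (s⁻¹ * b⁻¹ * s⁻¹) = 1 := by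
      rw [← mul_assoc, q1, mul_assoc, q2, neg_mul_neg, one_mul]
    rw [← h7, h5, mul_zero, zero_mul]
  exact two_ne (V := V) 1 0 (by norm_num) (by simpa using h6)

omit [Nontrivial V] in
/-- the two cases of an element commuting with a unit -/
lemma gam_cases {x y c : Module.End ℂ V} (hx : x * x = -1) (hy : y * y = -1)
    (hyx : y * x = -(x * y)) (hc : c * c = -c - 1) (hcx : c * x = x * c)
    (h : c * y = y * c ∨ y * c = (-1 - c) * y) :
    gam x c * gam x c + gam y c * gam y c + gam (x * y) c * gam (x * y) c = 9 ∨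
    gam x c * gam x c + gam y c * gam y c + gam (x * y) c * gam (x * y) c = 3 := by
  have hk : (x * y) * (x * y) = -1 := mul_sq hx hy hyx
  -- an element commuting with `c`
  have key : ∀ q : Module.End ℂ V, q * q = -1 → c * q = q * c → gam q c * gam q c = 3 := by
    intro q hq hcq
    have h3 : (3 : Module.End ℂ V) = 1 + 1 + 1 := by norm_num
    have h1 : q * c * q = -c := by rw [mul_assoc, hcq, ← mul_assoc, hq, neg_one_mul]
    rw [gam_sq hq hc, h1, h3, neg_mul, mul_neg, hc]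
    abel
  rcases h with h | h
  · left
    rw [key x hx hcx, key y hy h, key (x * y) hk (by
      rw [← mul_assoc, hcx, mul_assoc, h, mul_assoc])]
    norm_num
  · right
    have h1 : gam y c = 0 := by
      rw [gam, h, sub_mul, neg_one_mul]; abel
    have h2 : gam (x * y) c = 0 := by
      rw [gam, mul_assoc x y c, h, ← mul_assoc c x y, hcx, sub_mul, neg_one_mul, mul_sub, mul_neg,
        mul_assoc]
      abel
    rw [key x hx hcx, h1, h2, mul_zero, add_zero, add_zero]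

lemma twenty_ne : (4 * 9 : Module.End ℂ V) ≠ 20 ∧ (4 * 3 : Module.End ℂ V) ≠ 20 := by
  constructor
  · intro h
    refine two_ne (V := V) 36 20 (by norm_num) ?_
    push_cast
    rw [← h]; norm_num
  · intro h
    refine two_ne (V := V) 12 20 (by norm_num) ?_
    push_cast
    rw [← h]; norm_num

/-- units invert each other -/
lemma conj_inv (hf : Fpf ρ) {x y : G} (hx : ρ x * ρ x = -1) (hy : ρ y * ρ y = -1)
    (hyx : ρ y * ρ x = -(ρ x * ρ y)) : y * x * y⁻¹ = x⁻¹ := by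
  rw [mul_inv_eq_iff_eq_mul]
  have h1 : ρ (x * (y * x)) = ρ y := by
    rw [map_mul, map_mul, hyx, mul_neg, ← mul_assoc, hx, neg_one_mul, neg_neg]
  have h2 : x * (y * x) = y := hf.inj h1
  calc y * x = x⁻¹ * (x * (y * x)) := by group
    _ = x⁻¹ * y := by rw [h2]

/-- an element of order three is adjacent to some point of every line -/
lemma exists_adj (hf : Fpf ρ) (hA : Alt ρ) {a b c : G} (ha : O3 a) (hb : O3 b)
    (h : tr (ρ a) (ρ b) = 1) (hc : O3 c)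
    (h5 : ∀ n, ev (ρ (a * b⁻¹)) (ρ (a⁻¹ * b⁻¹ * a⁻¹)) (ρ c) n
      * ev (ρ (a * b⁻¹)) (ρ (a⁻¹ * b⁻¹ * a⁻¹)) (ρ c) n = 5) : False := by
  obtain ⟨q1, q2, q3, q4⟩ := units hf ha hb h
  obtain ⟨⟨g1, g2, g3⟩, g4⟩ := gam_anti h5
  have hc' := hf.sq hc
  -- the conclusion if `c` commutes with a unit
  have fin : ∀ x y : G, ρ x * ρ x = -1 → ρ y * ρ y = -1 → ρ y * ρ x = -(ρ x * ρ y) →
      y * x * y⁻¹ = x⁻¹ → c * x = x * c →
      4 * (gam (ρ x) (ρ c) * gam (ρ x) (ρ c) + gam (ρ y) (ρ c) * gam (ρ y) (ρ c)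
        + gam (ρ x * ρ y) (ρ c) * gam (ρ x * ρ y) (ρ c)) = 20 → False := by
    intro x y hx hy hyx hyx' hcx h20
    have hcx2 : (y * c * y⁻¹) * x = x * (y * c * y⁻¹) := by
      have e1 : Commute (y * c * y⁻¹) (y * x * y⁻¹) := by
        change (y * c * y⁻¹) * (y * x * y⁻¹) = (y * x * y⁻¹) * (y * c * y⁻¹)
        calc (y * c * y⁻¹) * (y * x * y⁻¹) = y * (c * x) * y⁻¹ := by group
          _ = y * (x * c) * y⁻¹ := by rw [hcx]
          _ = _ := by group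
      rw [hyx'] at e1
      have e2 := e1.inv_right
      rw [inv_inv] at e2
      exact e2.eq
    have h6 : ρ c * ρ y = ρ y * ρ c ∨ ρ y * ρ c = (-1 - ρ c) * ρ y := by
      rcases unique_of_comm hf hA hx hc (hc.conj y) hcx hcx2 with h7 | h7
      · left
        rw [← map_mul, ← map_mul]
        congr 1
        calc c * y = (y * c * y⁻¹) * y := by rw [h7]
          _ = y * c := by group
      · right
        rw [← hf.map_inv hc, ← map_mul, ← map_mul]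
        congr 1
        calc y * c = (y * c * y⁻¹) * y := by group
          _ = c⁻¹ * y := by rw [h7]
    rcases gam_cases hx hy hyx hc' (by rw [← map_mul, ← map_mul, hcx]) h6 with h7 | h7
    · rw [h7] at h20; exact (twenty_ne (V := V)).1 h20
    · rw [h7] at h20; exact (twenty_ne (V := V)).2 h20
  -- nonzero elements
  have comm_of : ∀ (x : G) (M : Module.End ℂ V), M ≠ 0 →
      (ρ x * ρ c - ρ c * ρ x) * M = 0 → c * x = x * c := by
    intro x M hM h6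
    obtain ⟨v, hv⟩ : ∃ v, M v ≠ 0 := by
      by_contra hcon
      push Not at hcon
      exact hM (LinearMap.ext hcon)
    by_contra hne
    apply hv
    refine hf ((c * x)⁻¹ * (x * c)) ?_ _ ?_
    · intro h7
      exact hne (inv_mul_eq_one.mp h7)
    · have h8 : (ρ x * ρ c) (M v) = (ρ c * ρ x) (M v) := by
        have h9 := LinearMap.congr_fun h6 v
        exact sub_eq_zero.mp h9
      calc ρ ((c * x)⁻¹ * (x * c)) (M v) = ρ (c * x)⁻¹ ((ρ x * ρ c) (M v)) := by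
            rw [map_mul ρ _ (x * c), map_mul ρ x c]; rfl
        _ = ρ (c * x)⁻¹ ((ρ c * ρ x) (M v)) := by rw [h8]
        _ = (ρ (c * x)⁻¹ * ρ (c * x)) (M v) := by rw [map_mul ρ c x]; rfl
        _ = M v := by rw [← map_mul, inv_mul_cancel, _root_.map_one]; rfl
  obtain ⟨i, hi⟩ : ∃ i, i = ρ (a * b⁻¹) := ⟨_, rfl⟩
  obtain ⟨j, hj⟩ : ∃ j, j = ρ (a⁻¹ * b⁻¹ * a⁻¹) := ⟨_, rfl⟩
  rw [← hi, ← hj] at q3
  rw [← hi] at q1
  rw [← hj] at q2
  rw [← hi, ← hj] at q4 g1 g2 g3 g4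
  have e1 : j * (i * j) = i := by
    rw [← mul_assoc, q4, neg_mul, mul_assoc, q2, mul_neg, mul_one, neg_neg]
  have e2 : (i * j) * j = -i := by rw [mul_assoc, q2, mul_neg, mul_one]
  have e3 : i * (i * j) = -j := by rw [← mul_assoc, q1, neg_one_mul]
  have e4 : (i * j) * i = j := by
    rw [mul_assoc, q4, mul_neg, ← mul_assoc, q1, neg_one_mul, neg_neg]
  have ek : (i * j) * (i * j) = -1 := mul_sq q1 q2 q4
  by_cases m1 : gam j (ρ c) * (i * j) + (i * j) * gam j (ρ c) = 0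
  swap
  · have h6 := gam_key (i := j) (j := i * j) (c := ρ c) q2 ek (by rw [e1, e2]) hc'
    rw [e1, g3, add_comm (gam j (ρ c) * gam i (ρ c)), g1, mul_zero, sub_zero] at h6
    rw [hj] at h6 m1
    have h7 := comm_of _ _ m1 h6
    refine fin (a⁻¹ * b⁻¹ * a⁻¹) (a * b⁻¹) (by rw [← hj]; exact q2) (by rw [← hi]; exact q1)
      (by rw [← hi, ← hj, q4, neg_neg]) (conj_inv hf (by rw [← hj]; exact q2)
        (by rw [← hi]; exact q1) (by rw [← hi, ← hj, q4, neg_neg])) h7 ?_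
    rw [← hi, ← hj, q4, gam_neg, neg_mul_neg, ← g4]
    congr 1
    abel
  by_cases m2 : gam (i * j) (ρ c) * j + j * gam (i * j) (ρ c) = 0
  swap
  · have h6 := gam_key (i := i * j) (j := j) (c := ρ c) ek q2 (by rw [e1, e2, neg_neg]) hc'
    rw [e2, gam_neg, add_comm (gam (i * j) (ρ c) * gam j (ρ c)), g3, mul_zero, zero_sub,
      mul_neg, neg_mul, ← neg_add, neg_neg, add_comm (gam (i * j) (ρ c) * gam i (ρ c)), g2] at h6
    have h7 := comm_of (b⁻¹ * a) _ m2 (by rw [← q3]; exact h6)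
    refine fin (b⁻¹ * a) (a * b⁻¹) (by rw [← q3]; exact ek) (by rw [← hi]; exact q1)
      (by rw [← hi, ← q3, e3, e4]) (conj_inv hf (by rw [← q3]; exact ek)
        (by rw [← hi]; exact q1) (by rw [← hi, ← q3, e3, e4])) h7 ?_
    rw [← hi, ← q3, e4, ← g4]
    congr 1
    abel
  have h6 := comm_key q1 q2 q4 (ρ c)
  rw [m1, m2, sub_zero] at h6
  have h7 := sub_eq_zero.mp (two_cancel h6)
  have h8 : c * (a * b⁻¹) = (a * b⁻¹) * c := by
    refine hf.inj ?_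
    rw [map_mul ρ c, map_mul ρ _ c, ← hi]
    exact h7
  exact fin (a * b⁻¹) (a⁻¹ * b⁻¹ * a⁻¹) (by rw [← hi]; exact q1) (by rw [← hj]; exact q2)
    (by rw [← hi, ← hj]; exact q4) (conj_inv hf (by rw [← hi]; exact q1)
      (by rw [← hj]; exact q2) (by rw [← hi, ← hj]; exact q4)) h8 (by rw [← hi, ← hj]; exact g4)

end Pool.Agent.Helper82.ZS
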