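import Mathlib
import Pool.Agent.Helper82.ZS.Geom

/-!
# The geometry of the elements of order three: the axioms
-/

set_option autoImplicit false
set_option linter.unusedSectionVars false

namespace Pool.Agent.Helper82.ZS

variable {G : Type*} [Group G] {V : Type*} [AddCommGroup V] [Module ℂ V] [Nontrivial V]
  {ρ : G →* Module.End ℂ V}

lemma alt_ln (hf : Fpf ρ) (hA : Alt ρ) {a b c : G} (ha : O3 a) (hb : O3 b)
    (h : tr (ρ a) (ρ b) = 1) (hc : O3 c) (hoff : Off a b c) (n : Fin 4) :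
    (Adj ρ c (ln a b n) ↔ (ev (ρ (a * b⁻¹)) (ρ (a⁻¹ * b⁻¹ * a⁻¹)) (ρ c) n = 1 ∨
      ev (ρ (a * b⁻¹)) (ρ (a⁻¹ * b⁻¹ * a⁻¹)) (ρ c) n = -1)) ∧
    (¬ Adj ρ c (ln a b n) → ev (ρ (a * b⁻¹)) (ρ (a⁻¹ * b⁻¹ * a⁻¹)) (ρ c) n
      * ev (ρ (a * b⁻¹)) (ρ (a⁻¹ * b⁻¹ * a⁻¹)) (ρ c) n = 5) := by
  have h1 := ev_eq hf ha hb h c n
  constructor
  · rw [← h1, ← adj_iff]
    exact ⟨Adj.symm', Adj.symm'⟩
  · intro h2
    rw [← h1]
    rcases hA (ln a b n) c (ln_O3 ha hb n) hc (hoff n).1 (hoff n).2 with h3 | h3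
    · exact absurd h3.symm' h2
    · exact h3

lemma two' (hf : Fpf ρ) (hA : Alt ρ) {a b c : G} (ha : O3 a) (hb : O3 b)
    (h : tr (ρ a) (ρ b) = 1) (hc : O3 c) (hoff : Off a b c) :
    ∃ s : Finset (Fin 4), s.card = 2 ∧ ∀ n, n ∈ s ↔ Adj ρ c (ln a b n) := by
  classical
  obtain ⟨q1, q2, _, q4⟩ := units hf ha hb h
  have hex : ∃ n, ev (ρ (a * b⁻¹)) (ρ (a⁻¹ * b⁻¹ * a⁻¹)) (ρ c) n = 1 ∨
      ev (ρ (a * b⁻¹)) (ρ (a⁻¹ * b⁻¹ * a⁻¹)) (ρ c) n = -1 := by
    by_contra hcon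
    push Not at hcon
    refine exists_adj hf hA ha hb h hc fun n => ?_
    obtain ⟨h1, h2⟩ := alt_ln hf hA ha hb h hc hoff n
    refine h2 fun h3 => ?_
    rcases h1.mp h3 with h4 | h4
    · exact (hcon n).1 h4
    · exact (hcon n).2 h4
  have h12 := ev_sum_twelve q1 q2 q4 (hf.sq hc) hex
  let s : Finset (Fin 4) := Finset.univ.filter fun n => Adj ρ c (ln a b n)
  have hs : ∀ n, n ∈ s ↔ Adj ρ c (ln a b n) := fun n => by
    rw [Finset.mem_filter]; exact ⟨fun h => h.2, fun h => ⟨Finset.mem_univ _, h⟩⟩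
  refine ⟨s, ?_, hs⟩
  let f : Fin 4 → ℤ := fun n => if n ∈ s then 1 else 5
  have hfn : ∀ n, ev (ρ (a * b⁻¹)) (ρ (a⁻¹ * b⁻¹ * a⁻¹)) (ρ c) n
      * ev (ρ (a * b⁻¹)) (ρ (a⁻¹ * b⁻¹ * a⁻¹)) (ρ c) n = ((f n : ℤ) : Module.End ℂ V) := by
    intro n
    obtain ⟨h1, h2⟩ := alt_ln hf hA ha hb h hc hoff n
    by_cases hn : n ∈ s
    · have e1 : f n = 1 := if_pos hn
      rw [e1]
      rcases h1.mp ((hs n).mp hn) with h4 | h4 <;> rw [h4] <;> simp
    · have e1 : f n = 5 := if_neg hn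
      rw [e1, h2 fun h3 => hn ((hs n).mpr h3)]
      push_cast
      rfl
  rw [hfn 0, hfn 1, hfn 2, hfn 3] at h12
  have h3 : ∑ n, f n = 12 := by
    by_contra hne
    refine two_ne (V := V) _ _ hne ?_
    rw [Fin.sum_univ_four]
    push_cast
    exact h12
  have h4 : ∑ n, f n = (s.card : ℤ) + 5 * ((4 : ℤ) - s.card) := by
    have e1 : ∑ n, f n = ∑ n : Fin 4, (5 - 4 * (if n ∈ s then (1 : ℤ) else 0)) := by
      refine Finset.sum_congr rfl fun n _ => ?_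
      change (if n ∈ s then (1 : ℤ) else 5) = _
      split_ifs <;> norm_num
    rw [e1, Finset.sum_sub_distrib, ← Finset.mul_sum, Finset.sum_ite_mem, Finset.univ_inter]
    simp
    ring
  have h5 : (s.card : ℤ) = 2 := by linarith
  exact_mod_cast h5

/-- the geometry of the elements of order three -/
theorem geo_of (hL3 : S_L3) (G : Type) [Group G] (V : Type) [AddCommGroup V] [Module ℂ V]
    [FiniteDimensional ℂ V] [Nontrivial V] (ρ : G →* Module.End ℂ V) (hf : Fpf ρ)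
    (hA : Alt ρ) : Geo G (Adj ρ) where
  symm _ _ _ _ h := h.symm'
  inv _ _ _ hy h := h.inv' hf hy
  conj g _ _ _ _ h := h.conj' g
  ne _ _ hx _ h := h.ne' hf hx
  braid _ _ hx hy h := h.braid' hf hx hy
  two a b c ha hb hab hbr hc hoff := two' hf hA ha hb (one_of_braid hf ha hb hab hbr) hc hoff
  opp a b c d ha hb hab hbr hc hoffc hd hoffd hdis hcd := by
    have h1 := one_of_braid hf ha hb hab hbr
    obtain ⟨s, hs, hs'⟩ := two' hf hA ha hb h1 hc hoffc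
    obtain ⟨t, ht, ht'⟩ := two' hf hA ha hb h1 hd hoffd
    obtain ⟨q1, q2, _, q4⟩ := units hf ha hb h1
    have hdisj : Disjoint s t := by
      rw [Finset.disjoint_left]
      intro n hn hn'
      exact hdis n ((hs' n).mp hn) ((ht' n).mp hn')
    have hun : s ∪ t = Finset.univ := by
      refine Finset.eq_univ_of_card _ ?_
      rw [Finset.card_union_of_disjoint hdisj, hs, ht, Fintype.card_fin]
    have h2 := hL3 V _ _ (ρ c) (ρ d) q1 q2 q4 (hf.sq hc) (hf.sq hd) (fun n => by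
      obtain ⟨c1, c2⟩ := alt_ln hf hA ha hb h1 hc hoffc n
      obtain ⟨d1, d2⟩ := alt_ln hf hA ha hb h1 hd hoffd n
      have hn : n ∈ s ∪ t := by rw [hun]; exact Finset.mem_univ n
      rcases Finset.mem_union.mp hn with hn | hn
      · left
        refine ⟨c1.mp ((hs' n).mp hn), d2 fun h => ?_⟩
        exact Finset.disjoint_left.mp hdisj hn ((ht' n).mpr h)
      · right
        refine ⟨c2 fun h => ?_, d1.mp ((ht' n).mp hn)⟩
        exact Finset.disjoint_left.mp hdisj ((hs' n).mpr h) hn) (by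
      obtain ⟨n, hn⟩ : s.Nonempty := by
        rw [← Finset.card_pos, hs]; norm_num
      exact ⟨n, (alt_ln hf hA ha hb h1 hc hoffc n).1.mp ((hs' n).mp hn)⟩)
    rcases adj_iff.mp hcd with h3 | h3
    · exact h2.1 h3
    · exact h2.2 h3

/-- the alternative from (F0) -/
theorem alt_of (hF0 : S_F0) (G : Type) [Group G] [Finite G] (V : Type) [AddCommGroup V]
    [Module ℂ V] [FiniteDimensional ℂ V] [Nontrivial V] (ρ : G →* Module.End ℂ V)
    (hf : Fpf ρ) : Alt ρ := by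
  intro x y hx hy h1 h2
  have h3 := hF0 G V ρ hf x y hx.1 hx.2 hy.1 hy.2 h1 h2
  rw [e, hf.tr_eq hx hy] at h3
  rcases h3 with h3 | h3 | h3
  · exact Or.inl (adj_iff.mpr (Or.inl h3))
  · exact Or.inl (adj_iff.mpr (Or.inr h3))
  · exact Or.inr (by rw [← pow_two]; exact h3)

/-- two subgroups of order three give an adjacent pair with a braid relation -/
lemma exists_pair {G : Type*} [Group G] {V : Type*} [AddCommGroup V] [Module ℂ V] [Nontrivial V]
    {ρ : G →* Module.End ℂ V} (hf : Fpf ρ) (hA : Alt ρ) {x y : G} (hx : O3 x) (hy : O3 y)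
    (h1 : y ≠ x) (h2 : y ≠ x⁻¹) : ∃ a b, O3 a ∧ O3 b ∧ tr (ρ a) (ρ b) = 1 := by
  have hst : O3 (y * x * y⁻¹) := hx.conj y
  have h3 : Adj ρ x (y * x * y⁻¹) := adj_conj hf hA hx hy h1 h2
  rcases h3 with h | h
  · exact ⟨x, (y * x * y⁻¹)⁻¹, hx, hst.inv, by rw [hf.tr_inv hst, h, sub_zero]⟩
  · exact ⟨x, _, hx, hst, h⟩

end Pool.Agent.Helper82.ZS
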