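import Mathlib
import Pool.Agent.Helper82.ZS.GeoInst
import Pool.Agent.Helper82.ZS.Fr3

/-!
# Cyclic normal subgroups of small index in finite groups acting freely on spheres

Every finite subgroup of `O(N)` acting freely on the sphere has a cyclic normal subgroup of index
at most `8000 N`.
-/

set_option autoImplicit false

namespace Pool.Agent.Helper82.ZS

open Pool.Agent.Helper82.EB
open Pool.Agent.Helper78.Eigen Pool.Agent.Helper78.GroupBound

/-- the quaternion group generated by two units -/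
lemma quat_of_units {G : Type*} [Group G] {V : Type*} [AddCommGroup V] [Module ℂ V] [Nontrivial V]
    {ρ : G →* Module.End ℂ V} (hf : Fpf ρ) {a b : G} (ha : O3 a) (hb : O3 b)
    (h : tr (ρ a) (ρ b) = 1) : Quat (a * b⁻¹) (a⁻¹ * b⁻¹ * a⁻¹) := by
  obtain ⟨q1, q2, _, q4⟩ := units hf ha hb h
  refine ⟨?_, ?_, ?_, ?_⟩
  · intro h2
    have h3 : ρ ((a * b⁻¹) ^ 2) = -1 := by rw [pow_two, map_mul]; exact q1
    rw [h2, _root_.map_one] at h3
    exact two_ne (V := V) 1 (-1) (by norm_num) (by simpa using h3)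
  · refine hf.faithful ?_
    have h3 : (a * b⁻¹) ^ 4 = (a * b⁻¹) * (a * b⁻¹) * ((a * b⁻¹) * (a * b⁻¹)) := by
      rw [← pow_two, ← pow_two, ← pow_mul]
    rw [h3, map_mul, map_mul, q1, neg_mul_neg, one_mul]
  · refine hf.inj ?_
    rw [pow_two, pow_two, map_mul ρ (a⁻¹ * b⁻¹ * a⁻¹) (a⁻¹ * b⁻¹ * a⁻¹),
      map_mul ρ (a * b⁻¹) (a * b⁻¹), q1, q2]
  · have h3 := conj_inv hf q1 q2 q4
    rw [mul_inv_eq_iff_eq_mul] at h3
    exact h3

/-- a finite group with a fixed point free representation is solvable or has a normal subgroup of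
index at most `8000` with cyclic Sylow subgroups -/
theorem rep_main (hF0 : S_F0) (hL3 : S_L3) (hG3 : S_G3) (hC : S_CNT) (hI : S_IDX)
    (G : Type) [Group G] [Finite G] (hAC : AC G) (hU : UI G) (V : Type) [AddCommGroup V]
    [Module ℂ V] [FiniteDimensional ℂ V] [Nontrivial V] (ρ : G →* Module.End ℂ V)
    (hf : Fpf ρ) :
    Group.IsSolvable G ∨ ∃ K : Subgroup G, K.Normal ∧ IsZGroup K ∧ K.index ≤ 8000 := by
  have hA : Alt ρ := alt_of hF0 G V ρ hf
  by_cases h : ∀ x y : G, O3 x → O3 y → y = x ∨ y = x⁻¹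
  · left
    exact hG3 G hAC hU fun x y h1 h2 h3 h4 => h x y ⟨h1, h2⟩ ⟨h3, h4⟩
  · right
    push Not at h
    obtain ⟨x, y, hx, hy, h1, h2⟩ := h
    obtain ⟨a, b, ha, hb, hab⟩ := exists_pair hf hA hx hy h1 h2
    obtain ⟨⟨F, hF, hF'⟩, c, hc, hcl⟩ := hC G (Adj ρ) (geo_of hL3 G V ρ hf hA) a b ha hb
      (Or.inr hab) (braid_of_one hf ha hb hab)
    have hma : a ∈ Subgroup.closure {a, b, c} := Subgroup.subset_closure (by simp)
    have hmb : b ∈ Subgroup.closure {a, b, c} := Subgroup.subset_closure (by simp)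
    exact hI G hAC hU F a b c (a * b⁻¹) (a⁻¹ * b⁻¹ * a⁻¹) hF' hF ha hb hc hcl
      (quat_of_units hf ha hb hab) (mul_mem hma (inv_mem hmb))
      (mul_mem (mul_mem (inv_mem hma) (inv_mem hmb)) (inv_mem hma))

/-- there is at most one involution -/
lemma ui_of_free {N : ℕ} (Γ : Subgroup (Og N)) (hfree : Free Γ) : UI Γ := by
  intro u v hu hu1 hv hv1
  have h1 := neg_of_invol hfree u.2 (congrArg Subtype.val hu) (fun h => hu1 (Subtype.ext h))
  have h2 := neg_of_invol hfree v.2 (congrArg Subtype.val hv) (fun h => hv1 (Subtype.ext h))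
  exact Subtype.ext (Subtype.ext (h1.trans h2.symm))

/-- finite groups acting freely on spheres -/
theorem hasCN_all (hF0 : S_F0) (hL3 : S_L3) (hG3 : S_G3) (hC : S_CNT) (hI : S_IDX)
    (hR : S_REP) {N : ℕ} (hN : 0 < N) (Γ : Subgroup (Og N)) [Finite Γ]
    (hfree : Free Γ) : HasCN Γ (8000 * N) := by
  obtain ⟨ρ, hf⟩ := hR N Γ hfree
  have : Nonempty (Fin N) := ⟨⟨0, hN⟩⟩
  have hAC := ac_of_free hN Γ hfree
  rcases rep_main hF0 hL3 hG3 hC hI Γ hAC (ui_of_free Γ hfree) (Fin N → ℂ) ρ hf with h | h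
  · have h1 : Group.IsSolvable (⊤ : Subgroup Γ) := inferInstance
    have h2 := hasCN_solvable hN Γ hfree ⊤ inferInstance h1
    rw [Subgroup.index_top, mul_one] at h2
    exact h2.mono (Nat.mul_le_mul_right N (by norm_num))
  · obtain ⟨K, hKn, hKz, hK⟩ := h
    refine (hasCN_of_z hN Γ hfree K hKn hKz).mono ?_
    rw [mul_comm 8000]
    exact Nat.mul_le_mul_left N hK

end Pool.Agent.Helper82.ZS
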