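import Mathlib
import Pool.Agent.Helper82.ZS.Fr

/-!
# Roots of unity `ζ`, `η` with `ζ + ζ⁻¹ + η + η⁻¹ = 1`
-/

set_option autoImplicit false

namespace Pool.Agent.Helper82.ZS

open Polynomial

/-- conjugates of the relation -/
lemma nt_conj {m k : ℕ} {ζ η : ℂ} (hm : 0 < m) (hk : 0 < k) (hζ : IsPrimitiveRoot ζ m)
    (hη : IsPrimitiveRoot η k) (h : ζ + ζ⁻¹ + η + η⁻¹ = 1) (j : ℕ) (hj : j.Coprime (m * k)) :
    ζ ^ j + (ζ ^ j)⁻¹ + η ^ j + (η ^ j)⁻¹ = 1 := by
  have hM : m * k ≠ 0 := (Nat.mul_pos hm hk).ne'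
  have : NeZero (m * k) := ⟨hM⟩
  obtain ⟨ξ, hξ⟩ : ∃ ξ : ℂ, IsPrimitiveRoot ξ (m * k) :=
    ⟨_, Complex.isPrimitiveRoot_exp _ hM⟩
  obtain ⟨a, ha, rfl⟩ := hξ.eq_pow_of_pow_eq_one
    (show ζ ^ (m * k) = 1 by rw [pow_mul, hζ.pow_eq_one, one_pow])
  obtain ⟨b, hb, rfl⟩ := hξ.eq_pow_of_pow_eq_one
    (show η ^ (m * k) = 1 by rw [mul_comm, pow_mul, hη.pow_eq_one, one_pow])
  have hinv : ∀ (x : ℂ), x ^ (m * k) = 1 → ∀ c, c < m * k → x ^ (m * k - c) = (x ^ c)⁻¹ := by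
    intro x hx c hc
    have hx0 : x ≠ 0 := by
      rintro rfl
      rw [zero_pow hM] at hx
      exact zero_ne_one hx
    rw [pow_sub₀ x hx0 hc.le, hx, one_mul]
  let P : ℤ[X] := X ^ a + X ^ (m * k - a) + X ^ b + X ^ (m * k - b) - 1
  have hP : ∀ x : ℂ, x ^ (m * k) = 1 →
      aeval x P = x ^ a + (x ^ a)⁻¹ + x ^ b + (x ^ b)⁻¹ - 1 := by
    intro x hx
    simp only [P, map_add, map_sub, map_pow, aeval_X, _root_.map_one]
    rw [hinv x hx a ha, hinv x hx b hb]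
  have h0 : aeval ξ P = 0 := by rw [hP ξ hξ.pow_eq_one, h, sub_self]
  have h1 : minpoly ℤ ξ ∣ P :=
    minpoly.isIntegrallyClosed_dvd (hξ.isIntegral (Nat.mul_pos hm hk)) h0
  have h2 : aeval (ξ ^ j) P = 0 := by
    rw [hξ.minpoly_eq_pow_coprime hj] at h1
    exact aeval_eq_zero_of_dvd_aeval_eq_zero h1 (minpoly.aeval _ _)
  have h3 : (ξ ^ j) ^ (m * k) = 1 := by rw [← pow_mul, mul_comm, pow_mul, hξ.pow_eq_one, one_pow]
  rw [hP _ h3] at h2
  rw [← pow_mul, ← pow_mul, mul_comm a j, mul_comm b j, pow_mul, pow_mul]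
  exact sub_eq_zero.mp h2

/-- all primitive `m`-th roots have real part at least `-1/2` -/
lemma nt_re {m k : ℕ} {ζ η : ℂ} (hm : 0 < m) (hk : 0 < k) (hζ : IsPrimitiveRoot ζ m)
    (hη : IsPrimitiveRoot η k) (h : ζ + ζ⁻¹ + η + η⁻¹ = 1) (ω : ℂ) (hω : IsPrimitiveRoot ω m) :
    -1 / 2 ≤ ω.re := by
  have : NeZero m := ⟨hm.ne'⟩
  have : NeZero (m * k) := ⟨(Nat.mul_pos hm hk).ne'⟩
  obtain ⟨i, _, hi, rfl⟩ := (hζ.isPrimitiveRoot_iff).mp hω
  -- lift of the exponent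
  obtain ⟨u, hu⟩ := ZMod.unitsMap_surjective (Dvd.intro k rfl : m ∣ m * k)
    (ZMod.unitOfCoprime i hi)
  have hj : (u : ZMod (m * k)).val.Coprime (m * k) := ZMod.val_coe_unit_coprime u
  have hmod : ζ ^ (u : ZMod (m * k)).val = ζ ^ i := by
    have h2 : (u : ZMod (m * k)).val ≡ i [MOD m] := by
      rw [← ZMod.natCast_eq_natCast_iff]
      have h1 := congrArg (fun v : (ZMod m)ˣ => (v : ZMod m)) hu
      simp only [ZMod.unitsMap_val, ZMod.coe_unitOfCoprime] at h1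
      rw [← h1, ZMod.natCast_val]
    rw [← pow_mod_orderOf ζ, ← pow_mod_orderOf ζ i, ← hζ.eq_orderOf]
    exact congrArg (fun n => ζ ^ n) h2
  have h1 := nt_conj hm hk hζ hη h _ hj
  rw [hmod] at h1
  set x := ζ ^ i with hx
  set y := η ^ (u : ZMod (m * k)).val with hy
  have hxn : ‖x‖ = 1 := Complex.norm_eq_one_of_pow_eq_one
    (show x ^ m = 1 by rw [hx, ← pow_mul, mul_comm, pow_mul, hζ.pow_eq_one, one_pow]) hm.ne'
  have hyn : ‖y‖ = 1 := Complex.norm_eq_one_of_pow_eq_one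
    (show y ^ k = 1 by rw [hy, ← pow_mul, mul_comm, pow_mul, hη.pow_eq_one, one_pow]) hk.ne'
  rw [Complex.inv_eq_conj hxn, Complex.inv_eq_conj hyn] at h1
  have h2 := congrArg Complex.re h1
  simp only [Complex.add_re, Complex.conj_re, Complex.one_re] at h2
  have h3 : y.re ≤ 1 := (Complex.re_le_norm y).trans hyn.le
  linarith

/-- a primitive root with small real part -/
lemma nt_cos {m t : ℕ} (hm : 0 < m) (ht : t.Coprime m) (h1 : m < 3 * t) (h2 : 2 * t ≤ m) :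
    ∃ ω : ℂ, IsPrimitiveRoot ω m ∧ ω.re < -1 / 2 := by
  refine ⟨_, Complex.isPrimitiveRoot_exp_of_coprime t m hm.ne' ht, ?_⟩
  have hm' : (0 : ℝ) < m := by exact_mod_cast hm
  have h3 : (2 * Real.pi * Complex.I * ((t : ℂ) / (m : ℂ)))
      = ((2 * Real.pi * (t / m) : ℝ) : ℂ) * Complex.I := by push_cast; ring
  rw [h3, Complex.exp_ofReal_mul_I_re]
  have h4 : Real.cos (2 * Real.pi / 3) = -1 / 2 := by
    have : 2 * Real.pi / 3 = Real.pi - Real.pi / 3 := by ring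
    rw [this, Real.cos_pi_sub, Real.cos_pi_div_three]
    norm_num
  rw [← h4]
  have hπ := Real.pi_pos
  have e1 : (m : ℝ) < 3 * t := by exact_mod_cast h1
  have e2 : 2 * (t : ℝ) ≤ m := by exact_mod_cast h2
  refine Real.cos_lt_cos_of_nonneg_of_le_pi (by positivity) ?_ ?_
  · rw [← mul_div_assoc, div_le_iff₀ hm']
    nlinarith
  · rw [← mul_div_assoc, div_lt_div_iff₀ (by norm_num) hm']
    nlinarith

theorem s_NT : S_NT := by
  intro m k ζ η hm hk hζ hη h
  have hre := nt_re hm hk hζ hη h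
  by_contra hcon
  push Not at hcon
  obtain ⟨n1, n3, n4, n6, n10⟩ := hcon
  have key : ∀ t : ℕ, t.Coprime m → m < 3 * t → 2 * t ≤ m → False := by
    intro t ht h1 h2
    obtain ⟨ω, hω, hlt⟩ := nt_cos hm ht h1 h2
    exact absurd (hre ω hω) (not_le.mpr hlt)
  rcases Nat.even_or_odd' m with ⟨r, hr | hr⟩
  · rcases Nat.even_or_odd' r with ⟨s, hs | hs⟩
    · -- `m = 4 s`
      refine key (2 * s - 1) ?_ (by omega) (by omega)
      have h1 : (2 * s - 1).Coprime (2 * s) := by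
        have : 2 * s = (2 * s - 1) + 1 := by omega
        rw [this, Nat.add_sub_cancel]
        exact (Nat.coprime_self_add_right).mpr (Nat.coprime_one_right _)
      have h2 : m = 2 * (2 * s) := by omega
      rw [h2]
      refine Nat.Coprime.mul_right ?_ h1
      rw [Nat.coprime_two_right, Nat.odd_iff]
      omega
    · -- `m = 4 s + 2`
      by_cases hs0 : s = 0
      · exact key 1 (Nat.coprime_one_left m) (by omega) (by omega)
      · refine key (2 * s - 1) ?_ (by omega) (by omega)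
        have h1 : (2 * s - 1).Coprime 4 := by
          have : (4 : ℕ) = 2 ^ 2 := by norm_num
          rw [this]
          refine Nat.Coprime.pow_right 2 ?_
          rw [Nat.coprime_two_right, Nat.odd_iff]
          omega
        have h2 : m = 4 + (2 * s - 1) * 2 := by omega
        rw [h2, Nat.coprime_add_mul_left_right]
        exact h1
  · refine key r ?_ (by omega) (by omega)
    have h2 : m = 1 + r * 2 := by omega
    rw [h2, Nat.coprime_add_mul_left_right]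
    exact Nat.coprime_one_right r

end Pool.Agent.Helper82.ZS
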