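import Mathlib
import Pool.Agent.Helper82.ZS.Fr3

set_option autoImplicit false

namespace Pool.Agent.Helper82.ZS

open Pool.Agent.Helper82.EB
open Pool.Agent.Helper78.Eigen Pool.Agent.Helper78.JordanFree Pool.Agent.Helper78.Frame
open Pool.Agent.Helper78.GroupBound Pool.Agent.Helper78.Extension Pool.Agent.Helper78

theorem s_REP : S_REP := by
  intro N Γ hfree
  refine ⟨(rep N).comp Γ.subtype, ?_⟩
  intro g hg v hv
  by_contra hv0
  have h1 : (toC N (g : Og N)).mulVec v = v := hv
  obtain ⟨w, hw0, hw⟩ := fixed_real _ v hv0 h1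
  exact hw0 (hfree g.1 g.2 (fun h0 => hg (Subtype.ext h0)) w hw)

end Pool.Agent.Helper82.ZS
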