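import Mathlib
import Pool.Agent.Helper82.ZS.Main
import Pool.Agent.Helper82.ZS.Rep
import Pool.Agent.Helper82.ZS.NT
import Pool.Agent.Helper12.ZS.A1
import Pool.Agent.Helper39.ZS.A2
import Pool.Agent.Helper45.ZS.B
import Pool.Agent.Helper45.ZS.G3
import Pool.Agent.Helper45.ZS.Cnt
import Pool.Agent.Helper78.ZS.A4
import Pool.Agent.Helper78.ZS.F0
import Pool.Agent.Helper78.ZS.L3
import Pool.Agent.Helper98.ZS.IDX

/-!
# Cyclic normal subgroups of index at most `8000 N`
-/

set_option autoImplicit false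

namespace Pool.Agent.Helper82.ZS

open Pool.Agent.Helper82.EB
open Pool.Agent.Helper78.Eigen Pool.Agent.Helper78.GroupBound

/-- every finite subgroup of `O(N)` acting freely on the sphere has a cyclic normal subgroup of
index at most `8000 N` -/
theorem hasCN_final {N : ℕ} (hN : 0 < N) (Γ : Subgroup (Og N)) [Finite Γ] (hfree : Free Γ) :
    HasCN Γ (8000 * N) :=
  hasCN_all (Pool.Agent.Helper78.ZS.s_F0 s_NT)
    Pool.Agent.Helper78.ZS.s_L3
    (Pool.Agent.Helper45.ZS.s_G3 Pool.Agent.Helper12.ZS.s_A1 Pool.Agent.Helper39.ZS.s_A2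
      Pool.Agent.Helper78.ZS.s_A4 Pool.Agent.Helper45.ZS.s_B)
    Pool.Agent.Helper45.ZS.s_CNT Pool.Agent.Helper98.ZS.s_IDX s_REP hN Γ hfree

end Pool.Agent.Helper82.ZS
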