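import Mathlib
import Pool.Agent.Helper82.EB.Num

/-!
# Sharper numerical bounds
-/

set_option autoImplicit false

namespace Pool.Agent.Helper82.EB

lemma XE_le9 {N κ : ℕ} (hN : 2 ≤ N) (hκ : 1 ≤ κ) (hM : 3 * (κ * κ) ≤ 2 ^ (N ^ 5)) :
    XE N κ ≤ 2 ^ (25 * (N ^ 5 * κ ^ 4)) := by
  unfold XE
  have hN0 : 0 < N := by omega
  set M := 3 * (κ * κ) with hMdef
  have hM0 : 0 < κ * κ + 2 * κ := by positivity
  have hmM : κ * κ + 2 * κ ≤ M := by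
    have : κ ≤ κ * κ := Nat.le_mul_self κ
    omega
  refine (BE_mono hN0 hM0 hmM).trans ?_
  unfold BE
  have h1 : M ^ M ≤ 2 ^ (N ^ 5 * M) := by
    calc M ^ M ≤ (2 ^ (N ^ 5)) ^ M := Nat.pow_le_pow_left hM M
      _ = 2 ^ (N ^ 5 * M) := by rw [← pow_mul]
  have h2 : (M ^ M) ^ M ≤ 2 ^ (N ^ 5 * M ^ 2) := by
    calc (M ^ M) ^ M ≤ (2 ^ (N ^ 5 * M)) ^ M := Nat.pow_le_pow_left h1 M
      _ = 2 ^ (N ^ 5 * M ^ 2) := by rw [← pow_mul]; congr 1; ring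
  have h3 : N ^ M ≤ 2 ^ (N * M) := by
    calc N ^ M ≤ (2 ^ N) ^ M := Nat.pow_le_pow_left (le_two_pow N) M
      _ = 2 ^ (N * M) := by rw [← pow_mul]
  have h4 : JJ N ^ M ≤ 2 ^ (5 * N ^ 3 * M) := by
    calc JJ N ^ M ≤ (2 ^ (5 * N ^ 3)) ^ M := Nat.pow_le_pow_left (JJ_le_two hN) M
      _ = 2 ^ (5 * N ^ 3 * M) := by rw [← pow_mul]
  have k2 : κ ^ 2 ≤ κ ^ 4 := Nat.pow_le_pow_right hκ (by norm_num)
  have c1 : N ^ 5 * κ ^ 2 ≤ N ^ 5 * κ ^ 4 := Nat.mul_le_mul_left _ k2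
  have c2 : 16 * (N * κ ^ 2) ≤ N ^ 5 * κ ^ 4 := by
    have h4 : 16 ≤ N ^ 4 := by
      calc 16 = 2 ^ 4 := by norm_num
        _ ≤ N ^ 4 := Nat.pow_le_pow_left hN 4
    calc 16 * (N * κ ^ 2) = (16 * N) * κ ^ 2 := by ring
      _ ≤ (N ^ 4 * N) * κ ^ 4 := Nat.mul_le_mul (Nat.mul_le_mul_right _ h4) k2
      _ = N ^ 5 * κ ^ 4 := by ring
  have c3 : 4 * (N ^ 3 * κ ^ 2) ≤ N ^ 5 * κ ^ 4 := by
    have h2 : 4 ≤ N ^ 2 := by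
      calc 4 = 2 ^ 2 := by norm_num
        _ ≤ N ^ 2 := Nat.pow_le_pow_left hN 2
    calc 4 * (N ^ 3 * κ ^ 2) = (4 * N ^ 3) * κ ^ 2 := by ring
      _ ≤ (N ^ 2 * N ^ 3) * κ ^ 4 := Nat.mul_le_mul (Nat.mul_le_mul_right _ h2) k2
      _ = N ^ 5 * κ ^ 4 := by ring
  calc (M ^ M) ^ M * (M ^ M * (N ^ M * ((M ^ M) ^ M * JJ N ^ M)))
      ≤ 2 ^ (N ^ 5 * M ^ 2) * (2 ^ (N ^ 5 * M) * (2 ^ (N * M) * (2 ^ (N ^ 5 * M ^ 2)
        * 2 ^ (5 * N ^ 3 * M)))) :=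
        Nat.mul_le_mul h2 (Nat.mul_le_mul h1 (Nat.mul_le_mul h3 (Nat.mul_le_mul h2 h4)))
    _ = 2 ^ (18 * (N ^ 5 * κ ^ 4) + 3 * (N ^ 5 * κ ^ 2) + 3 * (N * κ ^ 2)
        + 15 * (N ^ 3 * κ ^ 2)) := by
      rw [← pow_add, ← pow_add, ← pow_add, ← pow_add, hMdef]
      congr 1
      ring
    _ ≤ 2 ^ (25 * (N ^ 5 * κ ^ 4)) := two_pow_mono (by omega)

lemma YR_le9 {N κ : ℕ} (hN : 2 ≤ N) (hκ : 1 ≤ κ) : YR N κ ≤ 2 ^ (9 * (N ^ 5 * κ ^ 4)) := by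
  unfold YR
  set n := N / 2 with hn
  set R := N * N * (κ * κ) / 2 with hR
  have hn2 : 2 * n ≤ N := Nat.mul_div_le N 2
  have hR2 : 2 * R ≤ N * N * (κ * κ) := Nat.mul_div_le _ 2
  have hKR : N * (κ * κ) ≤ R := by
    rw [hR, Nat.le_div_iff_mul_le (by norm_num)]
    calc N * (κ * κ) * 2 = N * 2 * (κ * κ) := by ring
      _ ≤ N * N * (κ * κ) := Nat.mul_le_mul_right _ (Nat.mul_le_mul_left N hN)
  have hPR : N * (κ * κ) * n ≤ R := by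
    rw [hR, Nat.le_div_iff_mul_le (by norm_num)]
    calc N * (κ * κ) * n * 2 = N * (κ * κ) * (2 * n) := by ring
      _ ≤ N * (κ * κ) * N := Nat.mul_le_mul_left _ hn2
      _ = N * N * (κ * κ) := by ring
  have hNK : N ≤ N * (κ * κ) := Nat.le_mul_of_pos_right _ (Nat.mul_pos hκ hκ)
  refine (BR_le ((hN.trans hNK).trans hKR) hKR hPR).trans (two_pow_mono ?_)
  have h3 : 4 * (R * R) ≤ N ^ 4 * κ ^ 4 := by
    calc 4 * (R * R) = (2 * R) * (2 * R) := by ring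
      _ ≤ (N * N * (κ * κ)) * (N * N * (κ * κ)) := Nat.mul_le_mul hR2 hR2
      _ = N ^ 4 * κ ^ 4 := by ring
  have h4 : 8 * (R * R * n) ≤ N ^ 5 * κ ^ 4 := by
    calc 8 * (R * R * n) = (4 * (R * R)) * (2 * n) := by ring
      _ ≤ (N ^ 4 * κ ^ 4) * N := Nat.mul_le_mul h3 hn2
      _ = N ^ 5 * κ ^ 4 := by ring
  have h5 : 2 * (N ^ 4 * κ ^ 4) ≤ N ^ 5 * κ ^ 4 := by
    calc 2 * (N ^ 4 * κ ^ 4) ≤ N * (N ^ 4 * κ ^ 4) := Nat.mul_le_mul_right _ hN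
      _ = N ^ 5 * κ ^ 4 := by ring
  have h6 : 29 * (R * R) * n = 29 * (R * R * n) := by ring
  rw [h6]
  omega

/-- the bound for groups with a cyclic normal subgroup of index at most `κ` -/
theorem BG_le9 {N κ : ℕ} (hN : 2 ≤ N) (hκ : 1 ≤ κ) (hM : 3 * (κ * κ) ≤ 2 ^ (N ^ 5)) :
    BG N κ ≤ 2 ^ (36 * (N ^ 5 * κ ^ 4)) := by
  unfold BG
  have hX := XE_le9 hN hκ hM
  have hY := YR_le9 hN hκ
  have c3 : 16 * (N * κ ^ 2) ≤ N ^ 5 * κ ^ 4 := by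
    have h4 : 16 ≤ N ^ 4 := by
      calc 16 = 2 ^ 4 := by norm_num
        _ ≤ N ^ 4 := Nat.pow_le_pow_left hN 4
    calc 16 * (N * κ ^ 2) = (16 * N) * κ ^ 2 := by ring
      _ ≤ (N ^ 4 * N) * κ ^ 4 := Nat.mul_le_mul (Nat.mul_le_mul_right _ h4)
        (Nat.pow_le_pow_right hκ (by norm_num))
      _ = N ^ 5 * κ ^ 4 := by ring
  set T := N ^ 5 * κ ^ 4 with hT
  have hsq : κ * κ = κ ^ 2 := by ring
  have hNk : N * (κ * κ) ≤ 2 ^ (N * κ ^ 2) := by rw [hsq]; exact le_two_pow _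
  have h1 : YR N κ * (N * (κ * κ)) * XE N κ + XE N κ ≤ 2 ^ (34 * T + N * κ ^ 2 + 1) := by
    have h2 : YR N κ * (N * (κ * κ)) * XE N κ ≤ 2 ^ (34 * T + N * κ ^ 2) := by
      calc YR N κ * (N * (κ * κ)) * XE N κ ≤ 2 ^ (9 * T) * 2 ^ (N * κ ^ 2) * 2 ^ (25 * T) :=
            Nat.mul_le_mul (Nat.mul_le_mul hY hNk) hX
        _ = 2 ^ (34 * T + N * κ ^ 2) := by rw [← pow_add, ← pow_add]; congr 1; ring
    have h3 : XE N κ ≤ 2 ^ (34 * T + N * κ ^ 2) := hX.trans (two_pow_mono (by omega))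
    rw [pow_succ]
    omega
  have h4 : κ + 1 ≤ 2 ^ κ := Nat.lt_two_pow_self
  have h5 : N + 1 ≤ 2 ^ N := Nat.lt_two_pow_self
  have h6 : N * (κ * κ) + 1 ≤ 2 ^ (N * κ ^ 2) := by rw [hsq]; exact Nat.lt_two_pow_self
  have h7 : κ ≤ N * κ ^ 2 := by
    calc κ ≤ κ * κ := Nat.le_mul_self κ
      _ = κ ^ 2 := hsq
      _ ≤ N * κ ^ 2 := Nat.le_mul_of_pos_left _ (by omega)
  have h8 : N ≤ N * κ ^ 2 := Nat.le_mul_of_pos_right _ (Nat.pow_pos hκ)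
  calc (κ + 1) * ((N + 1) * (N * (κ * κ) + 1)) * (YR N κ * (N * (κ * κ)) * XE N κ + XE N κ)
      ≤ 2 ^ κ * (2 ^ N * 2 ^ (N * κ ^ 2)) * 2 ^ (34 * T + N * κ ^ 2 + 1) :=
        Nat.mul_le_mul (Nat.mul_le_mul h4 (Nat.mul_le_mul h5 h6)) h1
    _ = 2 ^ (κ + (N + N * κ ^ 2) + (34 * T + N * κ ^ 2 + 1)) := by
      rw [← pow_add, ← pow_add, ← pow_add]
    _ ≤ 2 ^ (36 * T) := two_pow_mono (by omega)

/-- the hypothesis of `BG_le9` for `κ = 8000 N` -/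
lemma hyp9 {N : ℕ} (hN : 2 ≤ N) : 3 * ((8000 * N) * (8000 * N)) ≤ 2 ^ (N ^ 5) := by
  have h1 : N * N ≤ 2 ^ (2 * N) := by
    calc N * N ≤ 2 ^ N * 2 ^ N := Nat.mul_le_mul (le_two_pow N) (le_two_pow N)
      _ = 2 ^ (2 * N) := by rw [← pow_add]; congr 1; ring
  have h2 : 3 * (8000 * 8000) ≤ 2 ^ 28 := by norm_num
  have h3 : 28 + 2 * N ≤ N ^ 5 := by
    have h4 : 16 ≤ N ^ 4 := by
      calc 16 = 2 ^ 4 := by norm_num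
        _ ≤ N ^ 4 := Nat.pow_le_pow_left hN 4
    calc 28 + 2 * N ≤ 16 * N := by omega
      _ ≤ N ^ 4 * N := Nat.mul_le_mul_right _ h4
      _ = N ^ 5 := by ring
  calc 3 * ((8000 * N) * (8000 * N)) = (3 * (8000 * 8000)) * (N * N) := by ring
    _ ≤ 2 ^ 28 * 2 ^ (2 * N) := Nat.mul_le_mul h2 h1
    _ = 2 ^ (28 + 2 * N) := by rw [← pow_add]
    _ ≤ 2 ^ (N ^ 5) := two_pow_mono h3

/-- the hypothesis of `BG_le9` for `κ = N` -/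
lemma hyp9' {N : ℕ} (hN : 2 ≤ N) : 3 * (N * N) ≤ 2 ^ (N ^ 5) := by
  refine le_trans ?_ (hyp9 hN)
  have : N * N ≤ (8000 * N) * (8000 * N) := Nat.mul_le_mul (by omega) (by omega)
  omega

end Pool.Agent.Helper82.EB
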